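import Pool.Agent.helper5.PR.AsmY
import Pool.Agent.helper3.PR.Z_FC
import Pool.Agent.helper50.PR.Z_STAB
import Pool.Agent.helper73.PR.Z_MAL1
import Pool.Agent.helper38.PR.Z_MAL
import Pool.Agent.helper24.PR.Z_UNIP
import Pool.Agent.helper72.PR.Z_AFF
import Pool.Agent.helper20.PR.Z_TRV
import Pool.Agent.helper30.PR.Z_NILU
import Pool.Agent.helper34.PR.Z_PULL
import Pool.Agent.helper98.PR.Z_CEN
import Pool.Agent.helper5.PR.Z_L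
import Pool.Agent.helper97.PR.Z_FINAL

/-!
Project pr: assembly of part Z.
-/

namespace Pool.Agent.PR

theorem tZ_MAL : Z_MAL_stmt := Z_MAL (Z_MAL1 Z_FC Z_STAB)
theorem tZ_TRV : Z_TRV_stmt := Z_TRV (Z_UNIP N_UNI) (Z_AFF Y_CHAR) Y_EIG
theorem tZ_NILU : Z_NILU_stmt := Z_NILU tZ_MAL tZ_TRV tY_NILU
theorem tZ_L : Z_L_stmt :=
  Z_L (Z_CEN tS_SYS tS_EXP tS_EXT tS_TOR S_DET tS_MAI Z_PULL tZ_NILU K_FG) tX_JR X_LEV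
    (X_DEC tX_CSI tX_CRT tX_RED tS_SAND) (X_FQ tX_CSI tX_CRT tX_RSJ tX_RED tS_SAND) (X_CQ tX_RSJ)
    (X_DEN S_ZI) (S_BND tS_EXT tK_CMP)
theorem tZ_FINAL : Z_FINAL_stmt :=
  Z_FINAL tZ_L (X_CFG tS_SAT S_ZI K_FG) (X_CQL tX_CSI tX_CRT tX_RSJ) (X_CRF tX_RED S_ZI) tY_CNL tY_TWO

end Pool.Agent.PR
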