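import Mathlib
import Pool.Agent.helper48.PR.Defs

/-!
# Project pr: (MP_a2a22c_al), parts T and K: transfer, embeddings, rationality of traces.

Statements only.  Module `pr:K-XXX` proves `K_XXX_stmt` (hypotheses = the statements it uses, as listed in the
row) in `Pool/Agent/<seat>/PR/K_XXX.lean`, namespace `Pool.Agent.PR`.  Targets: `TR_stmt` and `TRACE_stmt`
of `Pool.Agent.helper48.PR.Defs`.
-/

set_option autoImplicit false

namespace Pool.Agent.PR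

open Matrix

/-- an algebraic closure of `ℚ_ℓ` (no topology needed) -/
abbrev Om (ℓ : ℕ) [Fact ℓ.Prime] : Type := AlgebraicClosure ℚ_[ℓ]

/-! ### T: transfer -/

/-- **K-HOM**: a finitely generated group has finitely many homomorphisms to a finite group. -/
def K_HOM_stmt : Prop :=
  ∀ (Γ : Type) [Group Γ], Group.FG Γ → ∀ (Q : Type) [Group Q] [Finite Q], Finite (Γ →* Q)

/-- **K-TR** (uses K-HOM): this is `TR_stmt`.  Proof by compactness of `Γ → P` (Tychonoff): for an open normal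
subgroup `U` of `P` let `C_U` be the set of all `g : Γ → P` such that for some homomorphism `h : Γ →* P ⧸ U` with
`range h = range (mk' U ∘ f)` one has `mk (g x) = h x` for all `x`.  `C_U` is a finite union (over `h`, K-HOM) of
closed sets, nonempty (`QuotLe` applied to the finite group `range (mk' U ∘ f)`), `C_U ⊆ C_V` for `U ≤ V`; the
open normal subgroups form a basis at 1 of the profinite group `P` and are closed under intersection.  A point `g`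
of the intersection is a homomorphism and has `closure (range g) = closure (range f)`. -/
def K_TR_stmt : Prop := TR_stmt

/-! ### Embeddings -/

/-- **K-AI**: for every `d` there are `x_1, …, x_d ∈ ℤ_ℓ`, algebraically independent over `ℚ`, also after
`x_i ↦ β_i + ℓ x_i` (`β_i` integers), in `Ω`.  Proof: `ℚ_ℓ` is uncountable, so a transcendence basis of `ℚ_ℓ` over
`ℚ` is uncountable (an algebraic extension of a countable field is countable); multiply `d` of its elements by powers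
of `ℓ` to bring them into `ℤ_ℓ`; affine changes of variables preserve algebraic independence. -/
def K_AI_stmt : Prop :=
  ∀ (ℓ : ℕ) [Fact ℓ.Prime] (d : ℕ), ∃ x : Fin d → ℤ_[ℓ], ∀ β : Fin d → ℤ,
    AlgebraicIndependent ℚ (fun i => algebraMap ℤ_[ℓ] (Om ℓ) ((β i : ℤ_[ℓ]) + (ℓ : ℤ_[ℓ]) * x i))

/-- **K-TB**: finite transcendence bases of a finitely generated field, containing a given transcendental
element. -/
def K_TB_stmt : Prop :=
  ∀ (E : Type) [Field E] [CharZero E] (S : Finset E), IntermediateField.adjoin ℚ (S : Set E) = ⊤ →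
    (∃ (d : ℕ) (u : Fin d → E), IsTranscendenceBasis ℚ u) ∧
    (∀ c : E, Transcendental ℚ c → ∃ (d : ℕ) (u : Fin (d + 1) → E), IsTranscendenceBasis ℚ u ∧ u 0 = c)

/-- **K-EXT**: extension of embeddings.  Proof: first `ℚ(c) → Ω`, `c ↦ γ` (`IntermediateField.adjoin` simple,
minimal polynomial); `u` is algebraically independent over `ℚ(c)` and `b` over `ℚ(γ)` (algebraic extensions of `ℚ`), so
it extends to `ℚ(c)(u) → Ω`; `E` is algebraic over `ℚ(c)(u)`, `IsAlgClosed.lift`. -/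
def K_EXT_stmt : Prop :=
  ∀ (E : Type) [Field E] [CharZero E] (d : ℕ) (u : Fin d → E), IsTranscendenceBasis ℚ u →
    ∀ (Ω : Type) [Field Ω] [CharZero Ω] [IsAlgClosed Ω] (b : Fin d → Ω), AlgebraicIndependent ℚ b →
    ∀ (c : E), IsAlgebraic ℚ c → ∀ γ : Ω, Polynomial.aeval γ (minpoly ℚ c) = 0 →
    ∃ σ : E →+* Ω, (∀ i, σ (u i) = b i) ∧ σ c = γ

/-- **K-INT**: integrality.  Proof: each `s ∈ S` is a root of a nonzero polynomial with coefficients in `ℤ[u]`, with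
leading coefficient `g_s(u) ≠ 0`, `g_s ∈ ℤ[U_1..U_d]`; let `g = ∏ g_s`, choose `β ∈ ℤ^d` with `g(β) ≠ 0`
(`MvPolynomial` over an infinite domain) and `N = |g(β)|`.  If `ℓ ∤ N` then `g(β + ℓ x) ≡ g(β)` mod `ℓ` is a unit of
`ℤ_ℓ`, so `σ s` is a root of a polynomial over `ℤ_ℓ` with unit leading coefficient. -/
def K_INT_stmt : Prop :=
  ∀ (E : Type) [Field E] [CharZero E] (d : ℕ) (u : Fin d → E), IsTranscendenceBasis ℚ u →
    ∀ S : Finset E, ∃ (N : ℕ) (β : Fin d → ℤ), N ≠ 0 ∧ ∀ (ℓ : ℕ) [Fact ℓ.Prime], ¬ ℓ ∣ N →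
      ∀ (x : Fin d → ℤ_[ℓ]) (σ : E →+* Om ℓ),
        (∀ i, σ (u i) = algebraMap ℤ_[ℓ] (Om ℓ) ((β i : ℤ_[ℓ]) + (ℓ : ℤ_[ℓ]) * x i)) →
        ∀ s ∈ S, IsIntegral ℤ_[ℓ] (σ s)

/-- a good embedding of the ring generated by `S` into `Ω` -/
def GoodEmb {E : Type} [Field E] (S : Finset E) (ℓ : ℕ) [Fact ℓ.Prime]
    (σ : Algebra.adjoin ℤ (S : Set E) →+* Om ℓ) : Prop :=
  Function.Injective σ ∧ ∀ a, IsIntegral ℤ_[ℓ] (σ a)

/-- **K-EMB** (uses K-AI, K-TB, K-EXT, K-INT): embeddings of finitely generated domains of characteristic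
zero at all large primes: (1) one; (2) three with different values at a transcendental element `c`
(transcendence basis with `u 0 = c`, replace `x 0` by `x 0 + j`); (3) with any prescribed conjugate at an algebraic
element.  Work in `E' = IntermediateField.adjoin ℚ S`. -/
def K_EMB_stmt : Prop :=
  ∀ (E : Type) [Field E] [CharZero E] (S : Finset E),
    (∃ N : ℕ, N ≠ 0 ∧ ∀ (ℓ : ℕ) [Fact ℓ.Prime], ¬ ℓ ∣ N →
      ∃ σ : Algebra.adjoin ℤ (S : Set E) →+* Om ℓ, GoodEmb S ℓ σ) ∧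
    (∀ c : Algebra.adjoin ℤ (S : Set E), Transcendental ℚ (c : E) →
      ∃ N : ℕ, N ≠ 0 ∧ ∀ (ℓ : ℕ) [Fact ℓ.Prime], ¬ ℓ ∣ N →
        ∃ σ₁ σ₂ σ₃ : Algebra.adjoin ℤ (S : Set E) →+* Om ℓ,
          GoodEmb S ℓ σ₁ ∧ GoodEmb S ℓ σ₂ ∧ GoodEmb S ℓ σ₃ ∧
          σ₁ c ≠ σ₂ c ∧ σ₂ c ≠ σ₃ c ∧ σ₁ c ≠ σ₃ c) ∧
    (∀ c : Algebra.adjoin ℤ (S : Set E), IsAlgebraic ℚ (c : E) →
      ∃ N : ℕ, N ≠ 0 ∧ ∀ (ℓ : ℕ) [Fact ℓ.Prime], ¬ ℓ ∣ N →
        ∀ γ : Om ℓ, Polynomial.aeval γ (minpoly ℚ (c : E)) = 0 →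
          ∃ σ : Algebra.adjoin ℤ (S : Set E) →+* Om ℓ, GoodEmb S ℓ σ ∧ σ c = γ)

/-- **K-NR**: a nonsquare integer is a nonresidue modulo infinitely many primes (Jacobi symbol, quadratic
reciprocity: choose an odd `b` with `J(D | b) = -1` in a class mod `4 |D|`, then Dirichlet
`Nat.infinite_setOf_prime_and_eq_mod` with the periodicity `jacobiSym.mod_right`). -/
def K_NR_stmt : Prop :=
  ∀ D : ℤ, ¬ IsSquare D → ∀ N : ℕ, N ≠ 0 → ∃ ℓ : ℕ, ℓ.Prime ∧ ℓ ≠ 2 ∧ ¬ ℓ ∣ N ∧ ¬ IsSquare (D : ZMod ℓ)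

/-- **K-QNR** (uses K-NR): an irreducible rational quadratic polynomial has a root outside `ℚ_ℓ` for infinitely many
primes `ℓ`.  (Discriminant `D / k ^ 2`, `D` a nonsquare integer; if `D` is a square in `ℚ_ℓ`, it is one in `ℤ_ℓ` and
mod `ℓ`.) -/
def K_QNR_stmt : Prop :=
  ∀ f : Polynomial ℚ, f.Monic → Irreducible f → f.natDegree = 2 → ∀ N : ℕ, N ≠ 0 →
    ∃ (ℓ : ℕ) (h : ℓ.Prime), ¬ ℓ ∣ N ∧ haveI : Fact ℓ.Prime := ⟨h⟩;
      ∃ γ : Om ℓ, Polynomial.aeval γ f = 0 ∧ γ ∉ Set.range (algebraMap ℚ_[ℓ] (Om ℓ))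

/-! ### Realisation of `Ω`-representations over `ℤ_ℓ` -/

/-- **K-TOP**: `GL(ι, ℤ_ℓ)` (units topology) is a profinite group. -/
def K_TOP_stmt : Prop :=
  ∀ (ℓ : ℕ) [Fact ℓ.Prime] (ι : Type) [Fintype ι] [DecidableEq ι],
    IsTopologicalGroup (GL ι ℤ_[ℓ]) ∧ CompactSpace (GL ι ℤ_[ℓ]) ∧ T2Space (GL ι ℤ_[ℓ]) ∧
      TotallyDisconnectedSpace (GL ι ℤ_[ℓ])

/-- **K-CLO**: linear conditions over `ℚ_ℓ` are closed.  (The set is the preimage under the continuous coercion to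
`ℚ_ℓ`-matrices of a translate of a subspace of a finite dimensional space, `Submodule.closed_of_finiteDimensional`.) -/
def K_CLO_stmt : Prop :=
  ∀ (ℓ : ℕ) [Fact ℓ.Prime] (ι κ : Type) [Fintype ι] [Fintype κ] (V : Type) [AddCommGroup V]
    [Module ℚ_[ℓ] V] (T : Matrix ι ι ℤ_[ℓ] →+ V) (T' : Matrix κ κ ℤ_[ℓ] →+ V),
    (∀ (a : ℤ_[ℓ]) X, T (a • X) = (a : ℚ_[ℓ]) • T X) →
    (∀ (a : ℤ_[ℓ]) X, T' (a • X) = (a : ℚ_[ℓ]) • T' X) →
    ∀ (W : Submodule ℚ_[ℓ] V) (w : V),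
      IsClosed {p : Matrix ι ι ℤ_[ℓ] × Matrix κ κ ℤ_[ℓ] | T p.1 + T' p.2 - w ∈ W}

/-- **K-REG**: regular representation of a `ℤ_ℓ`-algebra generated by finitely many integral elements of `Ω`: it
is finite and free over `ℤ_ℓ`, with basis `r`; `a r_j = ∑ L(a)_ij r_i`. -/
def K_REG_stmt : Prop :=
  ∀ (ℓ : ℕ) [Fact ℓ.Prime] (S : Finset (Om ℓ)), (∀ s ∈ S, IsIntegral ℤ_[ℓ] s) →
    ∃ (m : ℕ) (r r' : Fin m → Om ℓ)
      (L : Algebra.adjoin ℤ_[ℓ] (S : Set (Om ℓ)) →+* Matrix (Fin m) (Fin m) ℤ_[ℓ]),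
      r ⬝ᵥ r' = 1 ∧
      ∀ a, r ᵥ* (L a).map (algebraMap ℤ_[ℓ] (Om ℓ)) = (a : Om ℓ) • r

/-- **K-BLK** (uses K-REG): block form: `R_{i,(j,k)} = δ_ij r_k`, `R'_{(j,k),i} = δ_ij r'_k`, `f l` = the block
matrix `(L (r l)_ij)`.  The entries of all `r l` lie in the algebra generated by the entries of the generators of `Λ`
and their inverses. -/
def K_BLK_stmt : Prop :=
  ∀ (ℓ : ℕ) [Fact ℓ.Prime] (n : ℕ) (Λ : Type) [Group Λ], Group.FG Λ →
    ∀ r : Λ →* GL (Fin n) (Om ℓ), (∀ l i j, IsIntegral ℤ_[ℓ] ((r l : Matrix (Fin n) (Fin n) (Om ℓ)) i j)) →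
    ∃ (m : ℕ) (R : Matrix (Fin n) (Fin n × Fin m) (Om ℓ)) (R' : Matrix (Fin n × Fin m) (Fin n) (Om ℓ))
      (f : Λ →* GL (Fin n × Fin m) ℤ_[ℓ]), R * R' = 1 ∧
      ∀ l, R * (f l : Matrix (Fin n × Fin m) (Fin n × Fin m) ℤ_[ℓ]).map (algebraMap ℤ_[ℓ] (Om ℓ))
        = (r l : Matrix (Fin n) (Fin n) (Om ℓ)) * R

/-- **K-REAL** (uses K-TR (= `TR_stmt`), K-TOP, K-CLO, K-BLK): transfer of pairs of `Ω`-representations.
Proof: `f = (f₁, f₂) : Λ →* GL × GL` from K-BLK, `g = (g₁, g₂)` from `TR_stmt`.  With `T(X) = R X R'`: the condition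
`R X = R X R' R` is linear in `X`, so closed (K-CLO); it holds on `f₁ l`, so on `g₁ γ`, and `T` is multiplicative on it;
`s₁ γ = T (g₁ γ)`.  `T (f₁ l) = r₁ l`.  If `range s₁` is finite, `{X | T X ∈ range s₁}` is closed, so `range r₁` is
finite.  The trace conditions are linear in `(X₁, X₂)` or in `(X₁, X₂⁻¹)`, hence closed. -/
def K_REAL_stmt : Prop :=
  ∀ (ℓ : ℕ) [Fact ℓ.Prime] (n : ℕ) (Γ Λ : Type) [Group Γ] [Group Λ], Group.FG Γ → Group.FG Λ → QuotLe Λ Γ →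
    ∀ r₁ r₂ : Λ →* GL (Fin n) (Om ℓ),
    (∀ l i j, IsIntegral ℤ_[ℓ] ((r₁ l : Matrix (Fin n) (Fin n) (Om ℓ)) i j)) →
    (∀ l i j, IsIntegral ℤ_[ℓ] ((r₂ l : Matrix (Fin n) (Fin n) (Om ℓ)) i j)) →
    ∃ s₁ s₂ : Γ →* Matrix (Fin n) (Fin n) (Om ℓ),
      ((Set.range r₁).Infinite → (Set.range s₁).Infinite) ∧
      ((Set.range r₂).Infinite → (Set.range s₂).Infinite) ∧
      ((∀ γ, (s₁ γ).trace ∈ Set.range (algebraMap ℚ_[ℓ] (Om ℓ))) →
        ∀ l, (r₁ l : Matrix (Fin n) (Fin n) (Om ℓ)).trace ∈ Set.range (algebraMap ℚ_[ℓ] (Om ℓ))) ∧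
      ((∀ γ, (s₁ γ).trace = (s₂ γ).trace) →
        ∀ l, (r₁ l : Matrix (Fin n) (Fin n) (Om ℓ)).trace = (r₂ l : Matrix (Fin n) (Fin n) (Om ℓ)).trace) ∧
      ((∀ γ, (s₁ γ).trace = (s₂ γ⁻¹).trace) →
        ∀ l, (r₁ l : Matrix (Fin n) (Fin n) (Om ℓ)).trace = (r₂ l⁻¹ : Matrix (Fin n) (Fin n) (Om ℓ)).trace)

/-- **K-FG**: `SL(n, ℤ)` is finitely generated. (`ES_univ` of helper48's Gen file, `xe i j c = (xe i j 1) ^ c`.) -/
def K_FG_stmt : Prop := ∀ n : ℕ, Group.FG (SLZ n)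

/-- **K-AC** (uses K-REAL, K-FG, `CL_stmt`): traces of `Ω`-representations of dimension `n`. -/
def K_AC_stmt : Prop :=
  ∀ (ℓ : ℕ) [Fact ℓ.Prime] (n : ℕ), 3 ≤ n → ∀ (Λ : Type) [Group Λ], Group.FG Λ → QuotLe Λ (SLZ n) →
    ∀ r₁ r₂ : Λ →* GL (Fin n) (Om ℓ),
    (∀ l i j, IsIntegral ℤ_[ℓ] ((r₁ l : Matrix (Fin n) (Fin n) (Om ℓ)) i j)) →
    (∀ l i j, IsIntegral ℤ_[ℓ] ((r₂ l : Matrix (Fin n) (Fin n) (Om ℓ)) i j)) →
    (Set.range r₁).Infinite → (Set.range r₂).Infinite →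
    (∀ l, (r₁ l : Matrix (Fin n) (Fin n) (Om ℓ)).trace ∈ Set.range (algebraMap ℚ_[ℓ] (Om ℓ))) ∧
    ((∀ l, (r₁ l : Matrix (Fin n) (Fin n) (Om ℓ)).trace = (r₂ l : Matrix (Fin n) (Fin n) (Om ℓ)).trace) ∨
     (∀ l, (r₁ l : Matrix (Fin n) (Fin n) (Om ℓ)).trace = (r₂ l⁻¹ : Matrix (Fin n) (Fin n) (Om ℓ)).trace))

/-- **K-BC**: base change of a representation along a ring homomorphism of the ring of its entries. -/
def K_BC_stmt : Prop :=
  ∀ (n : ℕ) (Λ : Type) [Group Λ], Group.FG Λ → ∀ (E : Type) [Field E] (ρ : Λ →* GL (Fin n) E),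
    ∃ S : Finset E,
      (∀ l i j, (ρ l : Matrix (Fin n) (Fin n) E) i j ∈ Algebra.adjoin ℤ (S : Set E)) ∧
      ∀ (Ω : Type) [Field Ω] (σ : Algebra.adjoin ℤ (S : Set E) →+* Ω), Function.Injective σ →
        ∃ r : Λ →* GL (Fin n) Ω,
          (∀ l i j (h : (ρ l : Matrix (Fin n) (Fin n) E) i j ∈ Algebra.adjoin ℤ (S : Set E)),
            (r l : Matrix (Fin n) (Fin n) Ω) i j = σ ⟨_, h⟩) ∧
          ((Set.range ρ).Infinite → (Set.range r).Infinite)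

/-- **K-RAT** (uses K-AC, K-EMB, K-QNR, K-BC): the traces of a representation over a field of characteristic zero
are rational.  Proof: let `c = tr ρ(l₀)` be not rational; `r^σ` = base change along `σ`.  If `c` is transcendental or
algebraic of degree `≥ 3` there are three good embeddings at one prime with different values at `c` (degree `≥ 3`:
three roots of the separable polynomial `minpoly ℚ c` in `Ω`); for two of them K-AC gives `tr r^σᵢ(l) = tr r^σⱼ(l)` or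
`= tr r^σⱼ(l⁻¹)` for all `l`; the first is excluded by `l = l₀`; the second for (1,2) and (2,3) gives
`tr r^σ₁(l) = tr r^σ₃(l)`, contradiction.  If the degree is 2: K-QNR and K-EMB (3) give `σ` with `σ c ∉ ℚ_ℓ`, against
K-AC. -/
def K_RAT_stmt : Prop :=
  ∀ (n : ℕ), 3 ≤ n → ∀ (Λ : Type) [Group Λ], Group.FG Λ → QuotLe Λ (SLZ n) →
    ∀ (E : Type) [Field E] [CharZero E] (ρ : Λ →* GL (Fin n) E), (Set.range ρ).Infinite →
      ∀ l, ∃ q : ℚ, (ρ l : Matrix (Fin n) (Fin n) E).trace = (q : E)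

/-- **K-CMP** (uses K-AC, K-EMB, K-BC, K-RAT): comparison of two representations over two fields at a common
prime. -/
def K_CMP_stmt : Prop :=
  ∀ (n : ℕ), 3 ≤ n → ∀ (Λ : Type) [Group Λ], Group.FG Λ → QuotLe Λ (SLZ n) →
    ∀ (E E' : Type) [Field E] [CharZero E] [Field E'] [CharZero E'] (ρ : Λ →* GL (Fin n) E)
      (ρ' : Λ →* GL (Fin n) E'), (Set.range ρ).Infinite → (Set.range ρ').Infinite →
      ∃ t : Λ → ℚ, (∀ l, (ρ l : Matrix (Fin n) (Fin n) E).trace = (t l : E)) ∧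
        ((∀ l, (ρ' l : Matrix (Fin n) (Fin n) E').trace = (t l : E')) ∨
         (∀ l, (ρ' l : Matrix (Fin n) (Fin n) E').trace = (t l⁻¹ : E')))

/-- **K-TRACE** (uses K-CMP): this is `TRACE_stmt`; map `GL(n, ℤ_p)` to `GL(n, ℚ_p)`. -/
def K_TRACE_stmt : Prop := TRACE_stmt

end Pool.Agent.PR
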