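import Mathlib
import Pool.Agent.helper48.SLn.Index

/-!
# Project pr: (MP_a2a22c_al), part M: the congruence subgroup property of `SL(n, ℤ)`, `n ≥ 3`.

Statements only.  Every module `pr:M-XXX` proves `theorem M_XXX : M_XXX_stmt` in
`Pool/Agent/<seat>/PR/M_XXX.lean` (namespace `Pool.Agent.PR`), importing this file.

From `Pool.Agent.helper48.SLn.Index` (namespace `Pool.Agent.H48SL`) one may use
`NQ`, `NQ_normal`, `tv_mem_NQ`, `Cong`, `mem_Cong`, `stab_reduce`, `Cong_central`, `xe`, `tv`,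
`ES_univ`, `tv_conj`, ...
-/

namespace Pool.Agent.PR

open Matrix

/-- admissible pairs for the Mennicke symbol: `a ≡ 1`, `b ≡ 0` mod `m`, `a` and `b` coprime -/
def Adm (m a b : ℤ) : Prop := m ∣ a - 1 ∧ m ∣ b ∧ IsCoprime a b

/-- A Mennicke symbol for the ideal `m ℤ` with values in an abelian group; `χ b a` is `[b ; a]`. -/
structure MSym (m : ℤ) {C : Type} [CommGroup C] (χ : ℤ → ℤ → C) : Prop where
  p1 : ∀ a b t : ℤ, Adm m a b → χ (b + m * t * a) a = χ b a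
  p2 : ∀ a b t : ℤ, Adm m a b → χ b (a + t * b) = χ b a
  p3 : ∀ a b b' : ℤ, Adm m a b → Adm m a b' → χ (b * b') a = χ b a * χ b' a
  p4 : ∀ a a' b : ℤ, Adm m a b → Adm m a' b → χ b (a * a') = χ b a * χ b a'
  p5 : ∀ b : ℤ, m ∣ b → χ b 1 = 1
  p6 : ∀ a b : ℤ, Adm m a b → χ (-b) a = χ b a

/-- **M-TRA**: for fixed `a`, `b ↦ χ (m b) a` is multiplicative, `a`-periodic and trivial at `1`.
(`χ (m (b + t a)) a = χ (m b) a` by p1;  `χ m a = χ m (1 + t m) = χ m 1 = 1` by p2 (a = 1 + t m), p5;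
`χ (m b) a * χ (m b') a = χ (m (m b b')) a` by p3; with `b' = 1`: `χ (m b) a = χ (m (m b)) a`; apply this
with `b b'` for `b`.)  Hence, for `a = -p`, `p` prime, `χ (m b) (-p) ^ (p - 1) = 1` (`b ^ (p-1) ≡ 1 mod p`);
and for `ℓ` prime not dividing `m`, `χ (m ℓ) a ^ (ℓ - 1) = 1`: by p4 it is `χ (m ℓ) (a ^ (ℓ-1))`, and
`a ^ (ℓ - 1) ≡ 1` mod `m ℓ`, so it is `χ (m ℓ) 1 = 1` by p2, p5. -/
def M_TRA_stmt : Prop :=
  ∀ (m : ℤ), 1 ≤ m → ∀ (C : Type) [CommGroup C] (χ : ℤ → ℤ → C), MSym m χ →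
    (∀ a b t : ℤ, m ∣ a - 1 → IsCoprime a b → χ (m * (b + t * a)) a = χ (m * b) a) ∧
    (∀ a : ℤ, m ∣ a - 1 → χ (m * 1) a = 1) ∧
    (∀ a b b' : ℤ, m ∣ a - 1 → IsCoprime a b → IsCoprime a b' →
      χ (m * (b * b')) a = χ (m * b) a * χ (m * b') a) ∧
    (∀ a b : ℤ, ∀ k : ℕ, m ∣ a - 1 → IsCoprime a b → χ (m * b ^ k) a = χ (m * b) a ^ k) ∧
    (∀ (p : ℕ) (b : ℤ), p.Prime → m ∣ (p : ℤ) + 1 → IsCoprime (p : ℤ) b →
      χ (m * b) (-(p : ℤ)) ^ (p - 1) = 1) ∧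
    (∀ (ℓ : ℕ) (a : ℤ), ℓ.Prime → ¬ ((ℓ : ℤ) ∣ m) → m ∣ a - 1 → IsCoprime a (ℓ : ℤ) →
      χ (m * ℓ) a ^ (ℓ - 1) = 1)

/-- **M-TRB** (uses M-TRA): if `p` is a prime, `p ≡ -1` mod `4 m`, then `χ (m b) (-p) = 1` for all `b`
prime to `p`.  Proof: let `g` be a primitive root mod `p`.  By the Chinese remainder theorem and Dirichlet
(`Nat.infinite_setOf_prime_and_eq_mod` or its present name) there is a prime `ℓ > m`, `ℓ ≡ g` mod `p`, `ℓ ≡ 2`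
mod every odd prime `r` dividing `p - 1`.  As `p ≡ 3` mod `4`, `gcd (p - 1, ℓ - 1)` divides `2`, so `c := χ (m ℓ) (-p)`
has `c ^ (p-1) = 1 = c ^ (ℓ-1)`, hence `c ^ 2 = 1`.  `-1 ≡ g ^ ((p-1)/2)` mod `p`, `(p-1)/2` odd:
`1 = χ (m·1) (-p) = χ (m·(-1)) (-p)` (p6) `= c ^ ((p-1)/2) = c`.  So `c = 1` and every `b ≡ g ^ k` mod `p` has
`χ (m b) (-p) = c ^ k = 1`. -/
def M_TRB_stmt : Prop :=
  ∀ (m : ℤ), 1 ≤ m → ∀ (C : Type) [CommGroup C] (χ : ℤ → ℤ → C), MSym m χ →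
    ∀ (p : ℕ) (b : ℤ), p.Prime → 4 * m ∣ (p : ℤ) + 1 → IsCoprime (p : ℤ) b →
      χ (m * b) (-(p : ℤ)) = 1

/-- **M-TRC** (uses M-TRA, M-TRB): a Mennicke symbol for an ideal of `ℤ` is trivial.
Proof: `b = m b'`.  If `a = 0` (then `m = 1` and `b = ± 1`): `χ b 0 = χ b (0 + b·b) = χ b 1 = 1`.
Otherwise take a prime `q > 4 m` with `q ≡ b'` mod `a` (Dirichlet for the modulus `|a|`), so
`χ (m b') a = χ (m q) a`, and then a prime `p` with `p ≡ -1` mod `4 m`, `p ≡ -a` mod `q` (CRT, Dirichlet).  Then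
`-p ≡ a` mod `m q`, so `χ (m q) a = χ (m q) (-p)` by p2, `= 1` by M-TRB. -/
def M_TRC_stmt : Prop :=
  ∀ (m : ℤ), 1 ≤ m → ∀ (C : Type) [CommGroup C] (χ : ℤ → ℤ → C), MSym m χ →
    ∀ a b : ℤ, Adm m a b → χ b a = 1

/-- `SL(3, ℤ)` -/
abbrev SL3 : Type := SpecialLinearGroup (Fin 3) ℤ
/-- `SL(2, ℤ)` -/
abbrev SL2 : Type := SpecialLinearGroup (Fin 2) ℤ

/-- corner embedding in the rows and columns 0, 1 -/
def cn12 (g : SL2) : SL3 :=
  ⟨!![g.1 0 0, g.1 0 1, 0; g.1 1 0, g.1 1 1, 0; 0, 0, 1], by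
    have h := g.2
    rw [Matrix.det_fin_two] at h
    rw [Matrix.det_fin_three]
    simp
    linarith⟩

/-- corner embedding in the rows and columns 0, 2 -/
def cn13 (g : SL2) : SL3 :=
  ⟨!![g.1 0 0, 0, g.1 0 1; 0, 1, 0; g.1 1 0, 0, g.1 1 1], by
    have h := g.2
    rw [Matrix.det_fin_two] at h
    rw [Matrix.det_fin_three]
    simp
    linarith⟩

/-- corner embedding in the rows and columns 1, 2 -/
def cn23 (g : SL2) : SL3 :=
  ⟨!![1, 0, 0; 0, g.1 0 0, g.1 0 1; 0, g.1 1 0, g.1 1 1], by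
    have h := g.2
    rw [Matrix.det_fin_two] at h
    rw [Matrix.det_fin_three]
    simp
    linarith⟩

/-- `g ≡ 1` mod `m` for `g ∈ SL(2, ℤ)` -/
def G2 (m : ℤ) (g : SL2) : Prop :=
  m ∣ g.1 0 0 - 1 ∧ m ∣ g.1 0 1 ∧ m ∣ g.1 1 0 ∧ m ∣ g.1 1 1 - 1

/-- `N` is normal and contains all `1 + m E_ij`, `i ≠ j` -/
def Elem {n : ℕ} (m : ℤ) (N : Subgroup (SpecialLinearGroup (Fin n) ℤ)) : Prop :=
  N.Normal ∧ ∀ (g : SpecialLinearGroup (Fin n) ℤ) (i j : Fin n), i ≠ j →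
    (g : Matrix (Fin n) (Fin n) ℤ) = 1 + Matrix.single i j m → g ∈ N

/-- **M-NQ**: `N` contains every `1 + m x ⊗ φ`.  Proof: powers give `1 + m t E_ij`; conjugate `x = d · x'`, `x'`
primitive, to `d e_0` by an element of `SL(n, ℤ)` (`exists` from `euclid` / `ES_univ` in helper48's files), then
`1 + m d e_0 ⊗ φ` is a product of `1 + m d φ_j E_0j`, `j ≠ 0`. -/
def M_NQ_stmt : Prop :=
  ∀ (n : ℕ), 3 ≤ n → ∀ (m : ℤ) (N : Subgroup (SpecialLinearGroup (Fin n) ℤ)), Elem m N →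
    Pool.Agent.H48SL.NQ (Fin n) m ≤ N

/-- **M-CEN** (uses M-NQ): the classes of `cn12 g`, `cn13 g`, `cn23 g` (`g ≡ 1` mod `m`) are central modulo `N`,
(`Cong_central`, since `NQ ≤ N`) and they agree: `cn12 g`, `cn13 g`, `cn23 g` are conjugate up to signs, which
are removed by conjugation with diagonal matrices `diag(±1, ±1, ±1)` of determinant 1. -/
def M_CEN_stmt : Prop :=
  ∀ (m : ℕ), 1 ≤ m → ∀ (N : Subgroup SL3) [N.Normal], Elem (m : ℤ) N → ∀ g : SL2, G2 m g →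
    (QuotientGroup.mk' N (cn12 g)) ∈ Subgroup.center (SL3 ⧸ N) ∧
    QuotientGroup.mk' N (cn13 g) = QuotientGroup.mk' N (cn12 g) ∧
    QuotientGroup.mk' N (cn23 g) = QuotientGroup.mk' N (cn12 g)

/-- **M-WD** (uses M-CEN): the class of `cn12 g` depends only on the first row, is unchanged by
`b ↦ b + m t a`, `a ↦ a + t b`, `b ↦ - b`, and is trivial for `a = 1`.
Proof: same first row: `g' = (1 0; s 1) g`, `m ∣ s`.  `b ↦ b + m t a`: `g' = g (1 mt; 0 1)`.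
`a ↦ a + t b`: `g' = (1 0; -t 1) g (1 0; t 1)` up to the second row; it is `≡ 1` mod `m` and conjugate to `g`.
`b ↦ -b`: conjugate `cn12 g` by `diag(-1, 1, -1)`. -/
def M_WD_stmt : Prop :=
  ∀ (m : ℕ), 1 ≤ m → ∀ (N : Subgroup SL3) [N.Normal], Elem (m : ℤ) N → ∀ g g' : SL2, G2 m g → G2 m g' →
    ((g'.1 0 0 = g.1 0 0 ∧ g'.1 0 1 = g.1 0 1) ∨
     (∃ t : ℤ, g'.1 0 0 = g.1 0 0 ∧ g'.1 0 1 = g.1 0 1 + m * t * g.1 0 0) ∨
     (∃ t : ℤ, g'.1 0 0 = g.1 0 0 + t * g.1 0 1 ∧ g'.1 0 1 = g.1 0 1) ∨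
     (g'.1 0 0 = g.1 0 0 ∧ g'.1 0 1 = - g.1 0 1)) →
    QuotientGroup.mk' N (cn12 g') = QuotientGroup.mk' N (cn12 g)

/-- **M-MB** (uses M-CEN, M-WD): multiplicativity in `b`.  Let `g = (a b; c d)`, `g' = (a b'; c' d')`.  Then
`T = cn12 g * cn23 g' * (1 - b E_01)` has rows `(a, 0, b b')`, `(c, 1, d b')`, `(0, c', d')`; subtract `c'` times
row 1 from row 2, then clear row 1 with column 1 (multipliers `c`, `d b'`, divisible by `m`): the result is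
`cn13 (a, b b'; - c c', d' - d b' c')`. -/
def M_MB_stmt : Prop :=
  ∀ (m : ℕ), 1 ≤ m → ∀ (N : Subgroup SL3) [N.Normal], Elem (m : ℤ) N → ∀ g g' h : SL2,
    G2 m g → G2 m g' → G2 m h → g'.1 0 0 = g.1 0 0 → h.1 0 0 = g.1 0 0 → h.1 0 1 = g.1 0 1 * g'.1 0 1 →
    QuotientGroup.mk' N (cn12 h) = QuotientGroup.mk' N (cn12 g) * QuotientGroup.mk' N (cn12 g')

/-- **M-MA** (uses M-CEN, M-WD): multiplicativity in `a`.  Let `g = (a₁ b; c₁ d₁)`, `g' = (a₂ b; c₂ d₂)`,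
`h = (a₁ a₂ b; c d)`.  `U = (1 + a₁ E_12) * (cn12 g * cn13 g') * (1 - a₁ E_12)` (a conjugate) has rows
`(a₁a₂, b, 0)`, `(c₁a₂ + a₁c₂, d₁, a₁d₂ - 1)`, `(c₂, 0, d₂)`.  `U * (cn12 h)⁻¹` has first row `(1, 0, 0)`; after
clearing the first column (row operations with multipliers divisible by `m`) it is `cn23 A`,
`A = (a₂ - a₁ b c₂, a₁ d₂ - 1; - b c₂, d₂)`.  Conjugating `A` by `(1 a₁; 0 1)`:
`(1 -a₁; 0 1) A (1 a₁; 0 1) = (a₂, a₁a₂ - 1; - b c₂, d₂ - a₁ b c₂)`, whose class is trivial: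
`[a₁a₂ - 1; a₂] = [a₂ - 1; a₂]` (subtract `(a₁ - 1) a₂`) `= [a₂ - 1; 1] = 1`. -/
def M_MA_stmt : Prop :=
  ∀ (m : ℕ), 1 ≤ m → ∀ (N : Subgroup SL3) [N.Normal], Elem (m : ℤ) N → ∀ g g' h : SL2,
    G2 m g → G2 m g' → G2 m h → g'.1 0 1 = g.1 0 1 → h.1 0 1 = g.1 0 1 → h.1 0 0 = g.1 0 0 * g'.1 0 0 →
    QuotientGroup.mk' N (cn12 h) = QuotientGroup.mk' N (cn12 g) * QuotientGroup.mk' N (cn12 g')

/-- **M-COR** (uses M-CEN, M-WD, M-MB, M-MA, M-TRC): corner matrices lie in `N`.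
Proof: for an admissible pair choose `g ∈ SL(2, ℤ)` with first row `(a, b)` and `G2 m g` (from `a d - b c = 1`,
replace `(c, d)` by `(c - c a, d - c b)`), put `χ b a` = its class, in `Subgroup.center (SL3 ⧸ N)` (a `CommGroup`),
`χ b a = 1` for non-admissible pairs; `MSym m χ` by M-WD, M-MB, M-MA; M-TRC. -/
def M_COR_stmt : Prop :=
  ∀ (m : ℕ), 1 ≤ m → ∀ (N : Subgroup SL3), Elem (m : ℤ) N → ∀ g : SL2, G2 m g → cn12 g ∈ N

/-- **M-ALL** (uses M-NQ, M-COR): the congruence subgroup theorem, by induction on `n`: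
`stab_reduce` (helper48's Index file) with `l` the last index reduces an element of the principal congruence
subgroup, modulo `NQ ≤ N`, to one that fixes `e_l` and its dual; for `n = 3` this is `cn12 g`, `G2 m g`; for
`n ≥ 4` it is the image of an element of the principal congruence subgroup of `SL(n-1, ℤ)` under the corner
embedding `SL(n-1) →* SL(n)`, and the preimage of `N` under this embedding satisfies `Elem m`. -/
def M_ALL_stmt : Prop :=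
  ∀ (n : ℕ), 3 ≤ n → ∀ (m : ℕ), 1 ≤ m → ∀ (N : Subgroup (SpecialLinearGroup (Fin n) ℤ)),
    Elem (m : ℤ) N →
    (SpecialLinearGroup.map (n := Fin n) (Int.castRingHom (ZMod m))).ker ≤ N

/-- **M-FIN** (uses M-ALL): every finite-index subgroup of `SL(n, ℤ)`, `n ≥ 3`, contains a principal congruence
subgroup (normal core, `(1 + E_ij) ^ k = 1 + k E_ij`, `k` = index of the core). -/
def M_FIN_stmt : Prop :=
  ∀ (n : ℕ), 3 ≤ n → ∀ (N : Subgroup (SpecialLinearGroup (Fin n) ℤ)), N.FiniteIndex →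
    ∃ m : ℕ, 1 ≤ m ∧ (SpecialLinearGroup.map (n := Fin n) (Int.castRingHom (ZMod m))).ker ≤ N

end Pool.Agent.PR
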