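import Mathlib
import Pool.Agent.helper48.PR.SpecL
import Pool.Agent.helper5.PR.SpecK
import Pool.Agent.helper5.PR.SpecM

/-!
# Project pr: (MP_a2a22c_al), STAGE 2: the one-sided classification

FINAL (`S_FIN_stmt`): `n ≥ 3`, `L` finitely generated, residually finite, every finite quotient of `L` is a quotient
of `SL(n, ℤ)`, and `L` contains a torsion-free nilpotent subgroup of class `≥ n - 1`.  Then for some `m ≥ 1` there
is a surjective homomorphism `L → PSL(n, ℤ[1/m])` with finite kernel.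

Statements only.  Module `pr:S-XXX` proves `theorem S_XXX (hyps : the statements listed in its row) : S_XXX_stmt`
in `Pool/Agent/<seat>/PR/S_XXX.lean`, namespace `Pool.Agent.PR`, auxiliary lemmas with prefix `S_XXX_`.
-/

set_option autoImplicit false

namespace Pool.Agent.PR

open Matrix

/-- the elementary matrix `1 + E_01` of `SL(n, ℤ)` -/
def e01 (n : ℕ) (hn : 3 ≤ n) : SLZ n := el ⟨0, by omega⟩ ⟨1, by omega⟩ (by simp) 1

/-- scalar modulo `m` -/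
def ScM {n : ℕ} {R : Type} [CommRing R] (m : ℕ) (A : Matrix (Fin n) (Fin n) R) : Prop :=
  (∀ i j, i ≠ j → (m : R) ∣ A i j) ∧ ∀ i j, (m : R) ∣ A i i - A j j

/-- **S-SAND** (uses `M_ALL_stmt`): sandwich theorem.  Let `j` be the order of `φ (1 + E_01)`.
(1) all `1 + j E_ik` are in the kernel (they are conjugate to `(1 + E_01) ^ j` or its inverse), M-ALL.
(2) Let `x` be in the kernel `K`, `y = x⁻¹`, `ψ` a primitive integer row vector.  Choose a primitive `u` with `ψ u = 0`,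
`ψ x u = 0` (`n ≥ 3`), `τ = 1 + u ⊗ ψ`; `x τ x⁻¹ τ⁻¹ = (1 + xu ⊗ ψy)(1 - u ⊗ ψ) =: h ∈ K`, `ψ h = ψ`; for `ψ w = 0`:
`h (1 + w ⊗ ψ) h⁻¹ (1 + w ⊗ ψ)⁻¹ = 1 + (h w - w) ⊗ ψ = 1 + (ψ y w) (xu) ⊗ ψ ∈ K`, with `xu` primitive and
`ψ (x u) = 0`: this is conjugate in `SL(n, ℤ)` to `1 + (ψ y w) E_01`.  Hence `j ∣ ψ y w`.  `ψ = e_i`, `w = e_k`
(`i ≠ k`): `j ∣ y i k`.  `ψ = e_i + e_k`, `w = e_i - e_k`: `j ∣ y i i - y k k` (given the off-diagonal ones).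
As `x` was arbitrary in `K`, the same holds for `y`.  (`tv`, `tv_conj`, `tv_commutator`, `euclid` of helper48/SLn.) -/
def S_SAND_stmt : Prop :=
  ∀ (n : ℕ) (hn : 3 ≤ n) (Q : Type) [Group Q] [Finite Q] (φ : SLZ n →* Q),
    (∀ γ : SLZ n, MC (orderOf (φ (e01 n hn))) (γ : Matrix (Fin n) (Fin n) ℤ) 1 → φ γ = 1) ∧
    (∀ γ : SLZ n, φ γ = 1 → ScM (orderOf (φ (e01 n hn))) (γ : Matrix (Fin n) (Fin n) ℤ))

/-- A compatible system of surjections of `Γ` onto the finite quotients of `Λ`. -/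
structure Sys (Γ Λ : Type) [Group Γ] [Group Λ] where
  g : (M : FiniteIndexNormalSubgroup Λ) → Γ →* Λ ⧸ M.toSubgroup
  surj : ∀ M, Function.Surjective (g M)
  compat : ∀ M M' : FiniteIndexNormalSubgroup Λ, M ≤ M' → ∀ (γ : Γ) (l : Λ),
    g M γ = (l : Λ ⧸ M.toSubgroup) → g M' γ = (l : Λ ⧸ M'.toSubgroup)

/-- **S-SYS** (uses `TR_stmt`): a compatible system together with a transfer of a homomorphism to a profinite
group.  Apply TR to `P × ∀ M, Λ ⧸ M` (the quotients with the discrete topology). -/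
def S_SYS_stmt : Prop :=
  ∀ (Γ Λ : Type) [Group Γ] [Group Λ], Group.FG Γ → QuotLe Λ Γ →
    ∀ (P : Type) [Group P] [TopologicalSpace P] [IsTopologicalGroup P] [CompactSpace P] [T2Space P]
      [TotallyDisconnectedSpace P] (f : Λ →* P),
    ∃ (S : Sys Γ Λ) (h : Γ →* P),
      (∀ (l : Λ) (M : FiniteIndexNormalSubgroup Λ) (U : Set P), IsOpen U → f l ∈ U →
        ∃ γ, S.g M γ = (l : Λ ⧸ M.toSubgroup) ∧ h γ ∈ U) ∧
      (∀ (γ : Γ) (M : FiniteIndexNormalSubgroup Λ) (U : Set P), IsOpen U → h γ ∈ U →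
        ∃ l : Λ, S.g M γ = (l : Λ ⧸ M.toSubgroup) ∧ f l ∈ U)

/-- the level of the system at `M`: the order of the image of `1 + E_01` in `Λ ⧸ M` -/
noncomputable def lev {n : ℕ} (hn : 3 ≤ n) {Λ : Type} [Group Λ] (S : Sys (SLZ n) Λ)
    (M : FiniteIndexNormalSubgroup Λ) : ℕ := orderOf (S.g M (e01 n hn))

/-- the levels are unbounded at `q` -/
def Unb {n : ℕ} (hn : 3 ≤ n) {Λ : Type} [Group Λ] (S : Sys (SLZ n) Λ) (q : ℕ) : Prop :=
  ∀ i : ℕ, ∃ M, q ^ i ∣ lev hn S M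

/-- **S-IDX** (uses S-SAND): `lev ∣ D` bounds the index: `Λ ⧸ M` is a quotient of `SL(n, ℤ/D)`. -/
def S_IDX_stmt : Prop :=
  ∀ (n : ℕ) (hn : 3 ≤ n) (Λ : Type) [Group Λ] (S : Sys (SLZ n) Λ) (D : ℕ), 1 ≤ D →
    ∃ C : ℕ, ∀ M : FiniteIndexNormalSubgroup Λ, lev hn S M ∣ D → M.toSubgroup.index ≤ C

/-- **S-RFI**: an infinite residually finite group has normal subgroups of arbitrarily large finite index. -/
def S_RFI_stmt : Prop :=
  ∀ (Λ : Type) [Group Λ], RF Λ → Infinite Λ → ∀ C : ℕ, ∃ M : FiniteIndexNormalSubgroup Λ,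
    C < M.toSubgroup.index

/-- **S-ONE** (uses S-IDX): an infinite `ℓ`-adic representation makes the levels unbounded at `ℓ`.
Proof: suppose `ℓ ^ i₀ ∤ lev M` for all `M`.  For `k ≥ 1` let `M_k` be the kernel of `f` mod `ℓ ^ k`; the image `x_k` of
`e01` in `range (f mod ℓ^k) ≅ Λ ⧸ M_k` has order `lev M_k = ℓ ^ a j'`, `a < i₀`, `j'` prime to `ℓ`.  Let
`c = |GL(ι, ℤ/ℓ)|`; `y = x_k ^ (ℓ ^ i₀ c)` is `≡ 1` mod `ℓ`, so its order is a power of `ℓ` (the kernel of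
`GL(ℤ/ℓ^k) → GL(ℤ/ℓ)` is an `ℓ`-group), and it divides `j'`: `y = 1`.  So `lev M_k ∣ ℓ ^ i₀ c` for all `k`, the index of
`M_k` is bounded by S-IDX, and the range of `f` is finite. -/
def S_ONE_stmt : Prop :=
  ∀ (n : ℕ) (hn : 3 ≤ n) (Λ : Type) [Group Λ] (S : Sys (SLZ n) Λ) (ℓ : ℕ) [Fact ℓ.Prime]
    (ι : Type) [Fintype ι] [DecidableEq ι] (f : Λ →* GL ι ℤ_[ℓ]), (Set.range f).Infinite → Unb hn S ℓ

/-- **S-DICH** (uses S-IDX, S-RFI): either one prime has unbounded levels or infinitely many primes divide a level. -/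
def S_DICH_stmt : Prop :=
  ∀ (n : ℕ) (hn : 3 ≤ n) (Λ : Type) [Group Λ], RF Λ → Infinite Λ → ∀ S : Sys (SLZ n) Λ,
    (∃ p : ℕ, p.Prime ∧ Unb hn S p) ∨ (∀ B : ℕ, ∃ p : ℕ, p.Prime ∧ B < p ∧ ∃ M, p ∣ lev hn S M)

/-- **S-ADJ** (uses S-SAND): for a prime `p ∣ lev M` the adjoint representation mod `p`:
`α l` = Kronecker product of `γ` and `(γ⁻¹)ᵀ` mod `p`, for any `γ` with `S.g M γ = l` (well defined: the kernel of
`S.g M` consists of scalars mod `lev M`).  The image of `e01` has order `p`. -/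
def S_ADJ_stmt : Prop :=
  ∀ (n : ℕ) (hn : 3 ≤ n) (Λ : Type) [Group Λ] (S : Sys (SLZ n) Λ) (M : FiniteIndexNormalSubgroup Λ)
    (p : ℕ), p.Prime → p ∣ lev hn S M →
    ∃ α : Λ →* GL (Fin (n * n)) (ZMod p), p ≤ Nat.card (Set.range α)

/-- **S-ULT**: from representations mod `p` with growing images to a representation in characteristic zero with
infinite image.  `R = ∏ ZMod p_B`, `K = R ⧸ 𝔪`, `𝔪` a maximal ideal containing the direct sum (char `K = 0`); `α = ∏ α_B`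
mod `𝔪`.  If the image were finite, the kernel would be generated by finitely many `m_i` (Schreier); the entries of
`α(m_i) - 1` are in `𝔪`, so they vanish simultaneously at infinitely many `B` (an idempotent argument), and there
`|range α_B| ≤ [Λ : ker]`, a contradiction. -/
def S_ULT_stmt : Prop :=
  ∀ (N : ℕ) (Λ : Type) [Group Λ], Group.FG Λ →
    (∀ B : ℕ, ∃ (p : ℕ) (α : Λ →* GL (Fin N) (ZMod p)), p.Prime ∧ B < p ∧ B ≤ Nat.card (Set.range α)) →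
    ∃ (K : Type) (_ : Field K) (_ : CharZero K) (α : Λ →* GL (Fin N) K), (Set.range α).Infinite

/-- **S-ALM** (uses S-ONE, `K_BC_stmt`, `K_EMB_stmt`, `K_BLK_stmt`): zero-one law.  If `Λ` has a representation with
infinite image over a field of characteristic zero then the levels are unbounded at all but finitely many primes.
(Base change along a good embedding at `ℓ`, K-BLK gives `f : Λ →* GL(.., ℤ_ℓ)` with infinite range, S-ONE.) -/
def S_ALM_stmt : Prop :=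
  ∀ (n : ℕ) (hn : 3 ≤ n) (Λ : Type) [Group Λ], Group.FG Λ → ∀ (S : Sys (SLZ n) Λ) (N : ℕ) (E : Type)
    [Field E] [CharZero E] (ρ : Λ →* GL (Fin N) E), (Set.range ρ).Infinite →
    ∃ N₀ : ℕ, N₀ ≠ 0 ∧ ∀ ℓ : ℕ, ℓ.Prime → ¬ ℓ ∣ N₀ → Unb hn S ℓ

/-- **S-EXP** (uses S-DICH, S-ADJ, S-ULT, S-ALM): some prime has unbounded levels. -/
def S_EXP_stmt : Prop :=
  ∀ (n : ℕ) (hn : 3 ≤ n) (Λ : Type) [Group Λ], Group.FG Λ → RF Λ → Infinite Λ →
    ∀ S : Sys (SLZ n) Λ, ∃ p : ℕ, p.Prime ∧ Unb hn S p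

/-- `X` is a `p`-adic lift of the `p`-component of `l`, up to scalars -/
def RelP {n : ℕ} {L : Type} [Group L] (S : Sys (SLZ n) L) (p : ℕ) [Fact p.Prime] (l : L)
    (X : GL (Fin n) ℤ_[p]) : Prop :=
  (X : Matrix (Fin n) (Fin n) ℤ_[p]).det = 1 ∧
  ∀ (i : ℕ) (M : FiniteIndexNormalSubgroup L), ∃ γ : SLZ n, S.g M γ = (l : L ⧸ M.toSubgroup) ∧
    ∃ c : ℤ_[p], MC (p ^ i) (X : Matrix (Fin n) (Fin n) ℤ_[p]) (c • stdM ℤ_[p] γ)

/-- **S-EXA** (uses S-SAND): properties of `RelP`.  (1) by compactness of `SL(n, ℤ_p)`: the conditions `(i, M)` are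
clopen, directed and satisfiable.  (5): choose `M` with `p ^ i ∣ lev M`, then `γ` is scalar mod `p ^ i`.  (6): `γ` and
the element given by `RelP` differ by an element of the kernel, which is scalar mod `lev M`. -/
def S_EXA_stmt : Prop :=
  ∀ (n : ℕ) (hn : 3 ≤ n) (L : Type) [Group L] (S : Sys (SLZ n) L) (p : ℕ) [Fact p.Prime], Unb hn S p →
    (∀ l, ∃ X, RelP S p l X) ∧
    (∀ l l' X X', RelP S p l X → RelP S p l' X' → RelP S p (l * l') (X * X')) ∧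
    (∀ l X, RelP S p l X → RelP S p l⁻¹ X⁻¹) ∧
    RelP S p 1 1 ∧
    (∀ X, RelP S p 1 X → ∃ c : ℤ_[p], c ^ n = 1 ∧ (X : Matrix (Fin n) (Fin n) ℤ_[p]) = c • (1 : Matrix (Fin n) (Fin n) ℤ_[p])) ∧
    (∀ l X i M γ, RelP S p l X → S.g M γ = (l : L ⧸ M.toSubgroup) → p ^ i ∣ lev hn S M →
      ∃ c : ℤ_[p], MC (p ^ i) (X : Matrix (Fin n) (Fin n) ℤ_[p]) (c • stdM ℤ_[p] γ))

/-- the group of all pairs `(l, X)` with `RelP` -/
noncomputable def ExtG {n : ℕ} {L : Type} [Group L] (S : Sys (SLZ n) L) (p : ℕ) [Fact p.Prime] :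
    Subgroup (L × GL (Fin n) ℤ_[p]) := Subgroup.closure {x | RelP S p x.1 x.2}

/-- **S-EXB** (uses S-EXA): the commutator subgroup of `ExtG` has the properties wanted, except the one about finite
quotients.  `L` is perfect (`L` abelianised is finitely generated and has no nontrivial finite quotient, since
`SL(n, ℤ)` is perfect), `ExtG = [ExtG, ExtG] · kernel`, kernel finite and central (scalars), so `[ExtG, ExtG]` has finite
index in the finitely generated group `ExtG`. (Written for the subgroup `commutator` of `ExtG` as an abstract group `Λ`.) -/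
def S_EXB_stmt : Prop :=
  ∀ (n : ℕ) (hn : 3 ≤ n) (L : Type) [Group L], Group.FG L → RF L → ∀ (S : Sys (SLZ n) L) (p : ℕ)
    [Fact p.Prime], Unb hn S p →
    (∀ x : ExtG S p, RelP S p x.1.1 x.1.2) ∧
    Group.FG (commutator (ExtG S p)) ∧ RF (commutator (ExtG S p)) ∧
    (∀ l : L, ∃ x ∈ commutator (ExtG S p), x.1.1 = l) ∧
    (Set.Finite {x : ExtG S p | x.1.1 = 1}) ∧
    (∀ x : ExtG S p, x.1.1 = 1 → ∀ y : ExtG S p, x * y = y * x) ∧
    (∀ (γ : SLZ n) (i : ℕ) (M : FiniteIndexNormalSubgroup L), ∃ x ∈ commutator (ExtG S p),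
      S.g M γ = (x.1.1 : L ⧸ M.toSubgroup) ∧
      MC (p ^ i) (x.1.2 : Matrix (Fin n) (Fin n) ℤ_[p]) (stdM ℤ_[p] γ)) ∧
    (∀ (x : ExtG S p), x ∈ commutator (ExtG S p) → ∀ (i : ℕ) (M : FiniteIndexNormalSubgroup L), ∃ γ : SLZ n,
      S.g M γ = (x.1.1 : L ⧸ M.toSubgroup) ∧
      MC (p ^ i) (x.1.2 : Matrix (Fin n) (Fin n) ℤ_[p]) (stdM ℤ_[p] γ))
/-
Proof of the last two clauses: let `Ī` be the image of `ExtG` in `(L ⧸ M) × SL(n, ℤ/p^i)` and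
`θ(γ) = (S.g M γ, γ mod p^i)`, `Z` = the scalars.  `Ī Z = θ(SL(n,ℤ)) Z`: `⊆` by `RelP`; `⊇`: take `M' ≤ M` with
`p^i ∣ lev M'` (intersection), `l` with `S.g M' γ = l`, `X` with `RelP l X`, then (6) of S-EXA.  Hence
`[Ī, Ī] = [θ, θ] = θ([SL(n,ℤ), SL(n,ℤ)]) = θ(SL(n,ℤ))`.
-/

/-- **S-EXT** (uses S-EXB): the extension.  For `QuotLe Λ (SLZ n)`, `Λ = [ExtG, ExtG]`: let `W` be a normal subgroup of
finite index of `Λ`; take `i₀` such that a scalar `c ≡ 1` mod `p^i₀`, `c ^ n = 1` is `1`;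
`Λ₁ = {(l, X) ∈ Λ : X ≡ 1 mod p^i₀}` is mapped injectively to `L`; `W₁ = W ∩ Λ₁`, `M₂` = the image of `W₁` in `L`, normal
of finite index, `W₁ = {(l, X) ∈ Λ : l ∈ M₂, X ≡ 1 mod p^i₀}`.  So `Λ ⧸ W` is a quotient of the image of `Λ` in
`(L ⧸ M₂) × SL(n, ℤ/p^i₀)`, which is the image of `SL(n, ℤ)` by the last two clauses of S-EXB. -/
def S_EXT_stmt : Prop :=
  ∀ (n : ℕ) (hn : 3 ≤ n) (L : Type) [Group L], Group.FG L → RF L → ∀ (S : Sys (SLZ n) L) (p : ℕ)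
    [Fact p.Prime], Unb hn S p →
    ∃ (Λ : Type) (_ : Group Λ) (π : Λ →* L) (ρ : Λ →* GL (Fin n) ℤ_[p]),
      Group.FG Λ ∧ QuotLe Λ (SLZ n) ∧ RF Λ ∧ Function.Surjective π ∧ Finite π.ker ∧
      π.ker ≤ Subgroup.center Λ ∧ (Set.range ρ).Infinite ∧ ∀ x, RelP S p (π x) (ρ x)

/-- **S-REW** (uses `TR_stmt`, `K_TOP_stmt`, `K_CLO_stmt`, `K_BLK_stmt`): as K-REAL, for one representation and
conditions `∈ W`, `W` a subspace over `Ω`. -/
def S_REW_stmt : Prop :=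
  ∀ (ℓ : ℕ) [Fact ℓ.Prime] (n : ℕ) (Γ Λ : Type) [Group Γ] [Group Λ], Group.FG Γ → Group.FG Λ → QuotLe Λ Γ →
    ∀ r : Λ →* GL (Fin n) (Om ℓ),
    (∀ l i j, IsIntegral ℤ_[ℓ] ((r l : Matrix (Fin n) (Fin n) (Om ℓ)) i j)) →
    ∃ s : Γ →* Matrix (Fin n) (Fin n) (Om ℓ),
      ((Set.range r).Infinite → (Set.range s).Infinite) ∧
      ∀ W : Submodule (Om ℓ) (Matrix (Fin n) (Fin n) (Om ℓ)),
        (∀ l, (r l : Matrix (Fin n) (Fin n) (Om ℓ)) ∈ W) → ∀ γ, s γ ∈ W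

/-- **S-SPAN** (uses S-REW, `CL_stmt`, `K_FG_stmt`, `K_BC_stmt`, `K_EMB_stmt`): a representation of dimension `n` with
infinite image spans all matrices.  Otherwise there is `B ≠ 0` with entries in the ring of entries of `ρ` and
`trace (B ρ(l)) = 0` for all `l`; base change along a good embedding; `W = {A | trace (σ(B) A) = 0}`; the standard and the
dual representation of `SL(n, ℤ)` span all matrices. -/
def S_SPAN_stmt : Prop :=
  ∀ (n : ℕ), 3 ≤ n → ∀ (Λ : Type) [Group Λ], Group.FG Λ → QuotLe Λ (SLZ n) →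
    ∀ (E : Type) [Field E] [CharZero E] (ρ : Λ →* GL (Fin n) E), (Set.range ρ).Infinite →
      Submodule.span E (Set.range fun l => (ρ l : Matrix (Fin n) (Fin n) E)) = ⊤

/-- **S-KER** (uses `K_CMP_stmt`, S-SPAN): all representations of dimension `n` with infinite image have the same
kernel (as in LFAI: `trace ρ'(μ l) = trace ρ'(μ)` for all `μ` if `ρ l = 1`). -/
def S_KER_stmt : Prop :=
  ∀ (n : ℕ), 3 ≤ n → ∀ (Λ : Type) [Group Λ], Group.FG Λ → QuotLe Λ (SLZ n) →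
    ∀ (E E' : Type) [Field E] [CharZero E] [Field E'] [CharZero E'] (ρ : Λ →* GL (Fin n) E)
      (ρ' : Λ →* GL (Fin n) E'), (Set.range ρ).Infinite → (Set.range ρ').Infinite →
      ∀ l, ρ l = 1 → ρ' l = 1

/-- **S-TOR** (uses S-SYS (with trivial `P`), S-ALM, S-EXT, S-KER, S-SAND, `K_FG_stmt`): the kernel is a torsion group
of bounded exponent.  Proof: `S` a system for `Λ`, `N₀` from S-ALM; let `D` be the product over the primes `q ∣ N₀` with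
`¬ Unb S q` of `q ^ i_q`, where `q ^ i_q ∤ lev M` for all `M`.  Let `ρ l = 1`, `M` given, `S.g M γ = l`.  If `Unb S q` and
`q ^ i ∣ lev M` then `γ` is scalar mod `q ^ i`: take `Λ_q, π, ρ_q` from S-EXT, `x` with `π x = l`; by S-KER for `Λ_q` and the
representations `ρ ∘ π`, `ρ_q`: `ρ_q x = 1`, so `RelP S q l 1`, which gives `γ'` with `S.g M γ' = l`, scalar mod
`q ^ i`, and `γ' γ⁻¹` is scalar mod `lev M`.  So `γ` is scalar modulo the part `j₁` of `lev M` prime to `D`..., and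
`lev M = j₁ j₂`, `j₂ ∣ D`, whence `γ ^ n ≡ 1` mod `j₁` (determinant) and `γ ^ e ≡ 1` mod `lev M` with
`e = n |SL(n, ℤ/D)|`; `l ^ e ∈ M` for all `M`. -/
def S_TOR_stmt : Prop :=
  ∀ (n : ℕ), 3 ≤ n → ∀ (Λ : Type) [Group Λ], Group.FG Λ → QuotLe Λ (SLZ n) → RF Λ →
    ∀ (E : Type) [Field E] [CharZero E] (ρ : Λ →* GL (Fin n) E), (Set.range ρ).Infinite →
      ∃ e : ℕ, 1 ≤ e ∧ ∀ l, ρ l = 1 → l ^ e = 1

/-- torsion-free nilpotent with nontrivial `c`-th term (numbering from 0) of the lower central series -/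
def NilC (c : ℕ) (P : Type) [Group P] : Prop :=
  Group.IsNilpotent P ∧ (∀ g : P, g ≠ 1 → ∀ k : ℕ, 0 < k → g ^ k ≠ 1) ∧
    (⊤ : Subgroup P).lowerCentralSeries c ≠ ⊥

/-- **S-NILP**: pull back of torsion-free nilpotent subgroups along a surjection with finite central kernel.
Proof: replace `P` by a finitely generated subgroup with the same property (a nontrivial iterated commutator); its
preimage `P'` is nilpotent and finitely generated; `W` of finite index in `Λ` with `W ∩ ker π = 1`; `P₂ = P' ∩ W` is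
torsion-free (it embeds in `P`) and its image has finite index in `P`; if `P` has class exactly `d ≥ c + 1` and
`[x_1, …, x_d] ≠ 1` then, the commutator being multilinear modulo the next (trivial) term,
`[x_1 ^ k, …, x_d ^ k] = [x_1, …, x_d] ^ (k ^ d) ≠ 1`, so a subgroup of finite index has the same class. -/
def S_NILP_stmt : Prop :=
  ∀ (Λ L : Type) [Group Λ] [Group L] (π : Λ →* L), Function.Surjective π → Finite π.ker →
    π.ker ≤ Subgroup.center Λ → RF Λ →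
    ∀ (c : ℕ) (P : Subgroup L), NilC c P → ∃ P' : Subgroup Λ, NilC c P'

/-- **S-NILU**: rank one elements with a unipotent partner in nilpotent groups of class `≥ n - 1`. -/
def S_NILU_stmt : Prop :=
  ∀ (n : ℕ), 3 ≤ n → ∀ (F : Type) [Field F] [CharZero F] (P : Type) [Group P], NilC (n - 2) P →
    ∀ ρ : P →* Matrix (Fin n) (Fin n) F, Function.Injective ρ → (∀ x, (ρ x).det = 1) →
      ∃ t u : P, t * u = u * t ∧ (ρ t - 1).rank = 1 ∧ (∀ k : ℕ, 0 < k → ∀ m : ℤ, u ^ k ≠ t ^ m) ∧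
        (ρ u - 1) ^ n = 0

/-- **S-DET**: characters are trivial (`FG`, `QuotLe Λ (SLZ n)`, `SL(n, ℤ)` is perfect for `n ≥ 3`). -/
def S_DET_stmt : Prop :=
  ∀ (n : ℕ), 3 ≤ n → ∀ (Λ : Type) [Group Λ], Group.FG Λ → QuotLe Λ (SLZ n) →
    ∀ (A : Type) [CommGroup A] (χ : Λ →* A), ∀ l, χ l = 1

/-- the ring `ℤ[1/m]` -/
abbrev ZI (m : ℕ) : Subalgebra ℤ ℚ := Algebra.adjoin ℤ {((m : ℚ))⁻¹}

/-- `SL(n, ℤ[1/m])` -/
abbrev SLI (n m : ℕ) : Type := SpecialLinearGroup (Fin n) (ZI m)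

/-- the rational matrix of an element of `SL(n, ℤ[1/m])` -/
def ratM {n m : ℕ} (x : SLI n m) : Matrix (Fin n) (Fin n) ℚ := (x : Matrix (Fin n) (Fin n) (ZI m)).map (fun a => (a : ℚ))

/-- **S-ZI**: membership in `ℤ[1/m]`. -/
def S_ZI_stmt : Prop :=
  ∀ (m : ℕ), 1 ≤ m → ∀ x : ℚ, x ∈ ZI m ↔ ∃ k : ℕ, x.den ∣ m ^ k

/-- **S-LAT** (uses S-ZI): LLQ over `ℤ[1/m]` (a principal ideal domain): traces in `ℤ[1/m]` and a spanning range give an
invariant lattice. -/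
def S_LAT_stmt : Prop :=
  ∀ (n m : ℕ), 1 ≤ m → ∀ (Λ : Type) [Group Λ] (r : Λ →* Matrix (Fin n) (Fin n) ℚ),
    Submodule.span ℚ (Set.range r) = ⊤ → (∀ l, (r l).trace ∈ ZI m) →
    ∃ (x y : Matrix (Fin n) (Fin n) ℚ) (R : Λ →* Matrix (Fin n) (Fin n) (ZI m)), x * y = 1 ∧ y * x = 1 ∧
      ∀ l, r l = x * (R l).map (fun a => (a : ℚ)) * y

/-- **S-BAD** (uses S-ZI): the bad primes of the traces. -/
def S_BAD_stmt : Prop :=
  ∀ (n : ℕ) (Λ : Type) [Group Λ], Group.FG Λ → ∀ (r : Λ →* Matrix (Fin n) (Fin n) ℚ),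
    ∃ m : ℕ, 1 ≤ m ∧ (∀ l, (r l).trace ∈ ZI m) ∧ ∀ q : ℕ, q.Prime → q ∣ m → ∃ l, q ∣ (r l).trace.den

/-- **S-FORM** (uses `K_RAT_stmt`, S-SPAN, S-DET, S-LAT, S-BAD, `LR1_stmt`, `LSPQ_stmt`): rational form with minimal
denominators. -/
def S_FORM_stmt : Prop :=
  ∀ (n : ℕ), 3 ≤ n → ∀ (Λ : Type) [Group Λ], Group.FG Λ → QuotLe Λ (SLZ n) →
    ∀ (E : Type) [Field E] [CharZero E] (ρ : Λ →* GL (Fin n) E), (Set.range ρ).Infinite →
      ∀ t : Λ, ((ρ t : Matrix (Fin n) (Fin n) E) - 1).rank = 1 →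
      ∃ (m : ℕ) (R : Λ →* SLI n m) (x y : Matrix (Fin n) (Fin n) E), 1 ≤ m ∧ x * y = 1 ∧ y * x = 1 ∧
        (∀ l, (ρ l : Matrix (Fin n) (Fin n) E) = x * (ratM (R l)).map (fun a => (a : E)) * y) ∧
        ∀ q : ℕ, q.Prime → q ∣ m → ∃ l, q ∣ (ratM (R l)).trace.den

/-- **S-BND** (uses S-EXT, `K_CMP_stmt`): if a trace is not `q`-integral then the levels of every system are bounded at
`q`.  (Otherwise S-EXT at `q` for `Λ`, and K-CMP for the representations `R ∘ π` and `ρ_q` of `Λ_q`.) -/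
def S_BND_stmt : Prop :=
  ∀ (n : ℕ) (hn : 3 ≤ n) (Λ : Type) [Group Λ], Group.FG Λ → QuotLe Λ (SLZ n) → RF Λ →
    ∀ (m : ℕ), 1 ≤ m → ∀ (R : Λ →* SLI n m), (Set.range R).Infinite →
      ∀ q : ℕ, q.Prime → (∃ l, q ∣ (ratM (R l)).trace.den) → ∀ S : Sys (SLZ n) Λ, ¬ Unb hn S q

/-- **S-JNT** (uses S-SYS, `LTOP_stmt`, `LINF_stmt`, `LCZ_stmt`, `K_FG_stmt`, S-ZI): joint transfer at all primes not
dividing `m`.  `ZI m → ℤ_[q]` for `q ∤ m`; `P = ∏_{q ∤ m} GL(n, ℤ_q)`.  A congruence modulo `k` prime to `m` in all `ℤ_q` is an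
open condition on `P`. -/
def S_JNT_stmt : Prop :=
  ∀ (n : ℕ), 3 ≤ n → ∀ (Λ : Type) [Group Λ], QuotLe Λ (SLZ n) →
    ∀ (m : ℕ), 1 ≤ m → ∀ (R : Λ →* SLI n m), (Set.range R).Infinite →
      ∃ (S : Sys (SLZ n) Λ) (X Y : (q : Nat.Primes) → Matrix (Fin n) (Fin n) ℤ_[(q : ℕ)])
        (s : Nat.Primes → Bool), (∀ q, X q * Y q = 1 ∧ Y q * X q = 1) ∧
        (∀ (l : Λ) (M : FiniteIndexNormalSubgroup Λ) (k : ℕ), 1 ≤ k → k.Coprime m → ∃ γ : SLZ n,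
          S.g M γ = (l : Λ ⧸ M.toSubgroup) ∧ ∀ q : Nat.Primes, (q : ℕ) ∣ k →
            ∃ C : Matrix (Fin n) (Fin n) ℤ_[(q : ℕ)], (∀ i j, ((C i j : ℤ_[(q : ℕ)]) : ℚ_[(q : ℕ)]) = (ratM (R l) i j : ℚ_[(q : ℕ)])) ∧
              MC k C (X q * sdM (s q) _ γ * Y q)) ∧
        (∀ (γ : SLZ n) (M : FiniteIndexNormalSubgroup Λ) (k : ℕ), 1 ≤ k → k.Coprime m → ∃ l : Λ,
          S.g M γ = (l : Λ ⧸ M.toSubgroup) ∧ ∀ q : Nat.Primes, (q : ℕ) ∣ k →
            ∃ C : Matrix (Fin n) (Fin n) ℤ_[(q : ℕ)], (∀ i j, ((C i j : ℤ_[(q : ℕ)]) : ℚ_[(q : ℕ)]) = (ratM (R l) i j : ℚ_[(q : ℕ)])) ∧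
              MC k C (X q * sdM (s q) _ γ * Y q))

/-- **S-FINK** (uses S-JNT, S-BND, S-SAND): finite kernel.  Let `S` be the system of S-JNT; `D = ∏_{q ∣ m} q ^ i_q` with
`q ^ i_q ∤ lev M` for all `M` (S-BND).  For `R l = 1` and `M`: with `k` = the part of `lev M` prime to `m` there is
`γ ≡ 1` mod `k` with `S.g M γ = l`; if `γ`, `γ'` belong to `l`, `l'` and agree mod `D` then `γ γ'⁻¹ ≡ 1` mod `lev M`, so
`l ≡ l'` mod `M`.  So `ker R` has at most `|SL(n, ℤ/D)|` classes mod every `M`; `RF`. -/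
def S_FINK_stmt : Prop :=
  ∀ (n : ℕ), 3 ≤ n → ∀ (Λ : Type) [Group Λ], Group.FG Λ → QuotLe Λ (SLZ n) → RF Λ →
    ∀ (m : ℕ), 1 ≤ m → ∀ (R : Λ →* SLI n m), (Set.range R).Infinite →
      (∀ q : ℕ, q.Prime → q ∣ m → ∃ l, q ∣ (ratM (R l)).trace.den) → Finite R.ker

/-- congruence density modulo all `k` prime to `m` of a subgroup of `SL(n, ℤ[1/m])` -/
def DenI {n m : ℕ} (Δ : Subgroup (SLI n m)) : Prop :=
  ∀ k : ℕ, 1 ≤ k → k.Coprime m → ∀ γ : SLZ n, ∃ x ∈ Δ, ∀ i j, ∃ a : ZI m,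
    ratM x i j - ((γ : Matrix (Fin n) (Fin n) ℤ) i j : ℚ) = (k : ℚ) * (a : ℚ)

/-- **S-DEN** (uses S-JNT, `LSA_stmt`): density of the range (as LKEY). -/
def S_DEN_stmt : Prop :=
  ∀ (n : ℕ), 3 ≤ n → ∀ (Λ : Type) [Group Λ], QuotLe Λ (SLZ n) →
    ∀ (m : ℕ), 1 ≤ m → ∀ (R : Λ →* SLI n m), (Set.range R).Infinite → DenI R.range

/-- the inclusion `SL(n, ℤ) → SL(n, ℤ[1/m])` -/
def incI (n m : ℕ) : SLZ n →* SLI n m := SpecialLinearGroup.map (algebraMap ℤ (ZI m))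

/-- **S-INT**: a unipotent element of `SL(n, ℤ[1/m])` has an integral power (`k = n! m^s`, binomial formula). -/
def S_INT_stmt : Prop :=
  ∀ (n m : ℕ), 1 ≤ m → ∀ u : SLI n m, (ratM u - 1) ^ n = 0 →
    ∃ k : ℕ, 1 ≤ k ∧ ∃ γ : SLZ n, incI n m γ = u ^ k

/-- **S-ZDH**: `Δ ∩ SL(n, ℤ)` is Zariski dense if `Δ` is congruence dense and contains `z` with `z - 1` of rank one.
Proof: `z = 1 + e ⊗ φ`, `φ e = 0` (`det z = 1`), scale `e`, `φ` over `ℤ[1/m]`.  Let the integer polynomial `F` vanish on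
`Δ ∩ SL(n, ℤ)` and let `A ∈ SL(n, ℤ)`.  For every large prime `q` (not dividing `m`, `e`, `φ ≢ 0` mod `q`) the matrix `A` mod `q`
is a product of elements `1 + s_i δ_i e ⊗ φ δ_i⁻¹` mod `q` with `s_i ∈ ℤ`, `δ_i ∈ Δ` (`SL(n, 𝔽_q)` is generated by the conjugates
of `1 + s E_01`, and `Δ → SL(n, 𝔽_q)` is onto).  If all `s_i` are divisible by a high power of `m` the product `h(s)` over
`ℤ[1/m]` is integral and in `Δ`, so `F(h(s)) = 0`; a polynomial in `s` vanishing on `(m^a ℤ)^r` is zero; so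
`F(A) ≡ F(h(s)) = 0` mod `q`.  For infinitely many `q`: `F(A) = 0`. -/
def S_ZDH_stmt : Prop :=
  ∀ (n : ℕ), 3 ≤ n → ∀ (m : ℕ), 1 ≤ m → ∀ Δ : Subgroup (SLI n m), DenI Δ →
    ∀ z ∈ Δ, (ratM z - 1).rank = 1 → Pool.Agent.H48SL.ZDense (Δ.comap (incI n m))

/-- **S-HFI** (uses S-ZDH, S-INT, `LRK1_stmt`): then `Δ ∩ SL(n, ℤ)` has finite index in `SL(n, ℤ)`, by helper48's
`final_coef` (`SLn/Final.lean`), as in LTR. -/
def S_HFI_stmt : Prop :=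
  ∀ (n : ℕ), 3 ≤ n → ∀ (m : ℕ), 1 ≤ m → ∀ Δ : Subgroup (SLI n m), DenI Δ →
    ∀ z ∈ Δ, ∀ u ∈ Δ, z * u = u * z → (ratM z - 1).rank = 1 → (ratM u - 1) ^ n = 0 →
      (∀ k : ℕ, 0 < k → ∀ j : ℤ, u ^ k ≠ z ^ j) → (Δ.comap (incI n m)).FiniteIndex

/-- **S-UNB** (uses S-ZI): a subgroup of `SL(n, ℤ[1/m])` with a trace which is not `q`-integral has unbounded entries at
`q` (a group of matrices with bounded entries preserves a lattice over `ℤ_(q)`, so its traces are integral). -/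
def S_UNB_stmt : Prop :=
  ∀ (n m : ℕ), 1 ≤ m → ∀ (Δ : Subgroup (SLI n m)) (q : ℕ), q.Prime →
    (∃ x ∈ Δ, q ∣ (ratM x).trace.den) → ∀ r : ℕ, ∃ x ∈ Δ, ∃ i j, q ^ r ∣ (ratM x i j).den

/-- **S-SAQ** (uses S-ZI): one prime `q`.  Proof.  `N₀` = the intersection of all conjugates of `Δ ∩ SL(n, ℤ)` by `GL(n, ℤ)`,
of finite index; it contains all `x_ab(k₀)`.  Let `x ∈ Δ` have an entry whose denominator is divisible by `q ^ r`, `r`
large.  Smith form: `x = κ₁ d κ₂`, `κ_i ∈ GL(n, ℤ)`, `d` diagonal; `∏ d_i = ± 1` and some `v_q(d_i) ≤ -r`, so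
`v_q(d_i / d_j) ≤ -r` for some `i ≠ j`.  `Δ' = κ₁⁻¹ Δ κ₁` contains `N₀` and `d κ₂κ₁ N₀ (d κ₂κ₁)⁻¹ = d N₀ d⁻¹`, hence
`x_ij(k₀ d_i / d_j)`; by commutators with the `x_ab(k₀)` the set `I = {a : x_ab(a) ∈ Δ' for all a ≠ b}` (additive, closed under
products) contains `k₀` and `k₀³ d_i / d_j`; clearing the prime-to-`q` part of the denominator, `I` contains
`k₀` and `c / q ^ s`, `c` prime to `q`, `s ≥ 1` (if `r` is larger than `3 v_q(k₀)`), so, by powers and gcds, `k' / q ^ N` for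
all `N`, with a fixed `k'`.  So `Δ'` contains all `x_ab(k' a)`, `a ∈ ℤ[1/q]`.  By density in `SL(n, ℚ_q)`
(`SL(n, ℤ[1/q]) = SL(n, ℤ) · ⟨x_ab(k' a)⟩`: write an element as a product of `x_ab(a_t)` over `ℤ[1/q]`, approximate `a_t` `q`-adically by
elements of `k' ℤ[1/q]`, `k'` made prime to `q`), `Δ' ∩ SL(n, ℤ[1/q])` has finite index in `SL(n, ℤ[1/q])`; conjugate back by
`κ₁`: so has `Δ ∩ SL(n, ℤ[1/q])`, and it contains `x_ij(k a)` for all `a ∈ ℤ[1/q]`, some `k ≥ 1` (a factorial of the index). -/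
def S_SAQ_stmt : Prop :=
  ∀ (n : ℕ), 3 ≤ n → ∀ (m : ℕ), 1 ≤ m → ∀ Δ : Subgroup (SLI n m), (Δ.comap (incI n m)).FiniteIndex →
    ∀ q : ℕ, q.Prime → q ∣ m → (∀ r : ℕ, ∃ x ∈ Δ, ∃ i j, q ^ r ∣ (ratM x i j).den) →
    ∃ k : ℕ, 1 ≤ k ∧ ∀ (x : SLI n m) (i j : Fin n) (r : ℕ), i ≠ j →
      ratM x = 1 + Matrix.single i j ((k : ℚ) / (q : ℚ) ^ r) → x ∈ Δ

/-- **S-SAR** (uses S-ZI, S-SAQ): all primes dividing `m`, by partial fractions (`ℤ[1/m] = ∑ ℤ[1/q]`); a factor of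
`k` composed of primes dividing `m` is a unit. -/
def S_SAR_stmt : Prop :=
  ∀ (n : ℕ), 3 ≤ n → ∀ (m : ℕ), 1 ≤ m → ∀ Δ : Subgroup (SLI n m), (Δ.comap (incI n m)).FiniteIndex →
    (∀ q : ℕ, q.Prime → q ∣ m → ∀ r : ℕ, ∃ x ∈ Δ, ∃ i j, q ^ r ∣ (ratM x i j).den) →
    ∃ k : ℕ, 1 ≤ k ∧ k.Coprime m ∧ ∀ (x : SLI n m) (i j : Fin n) (a : ZI m), i ≠ j →
      (x : Matrix (Fin n) (Fin n) (ZI m)) = 1 + Matrix.single i j ((k : ZI m) * a) → x ∈ Δ

/-- **S-SAT** (helper17's S2; uses S-ZI, `M_FIN_stmt`, `LSA_stmt`): equality.  Proof: (i) `Δ ∩ SL(n, ℤ) ⊇ Γ(k_a k_b)`, `k_a`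
prime to `m`, `k_b ∣ m^∞` (M-FIN).  `K = k k_a`.  `Γ(K) ⊆ Δ`: let `s ∈ SL(n, ℤ)`, `s ≡ 1` mod `K`, `s = ∏ x_ij(c_t)`; choose integers
`d_t ≡ c_t` mod `k_b`, `d_t ≡ 0` mod `K`; `e = ∏ x_ij(d_t) ∈ Δ`, `e⁻¹ s ≡ 1` mod `k_b` and mod `K`.  (ii) Let `x ∈ SL(n, ℤ[1/m])`; LSA and
`DenI` give `δ ∈ Δ` with `x' = δ⁻¹ x ≡ 1` mod `K`; `x' = ∏ x_ij(a_t)` over `ℤ[1/m]` (Euclidean); choose `b_t ∈ K ℤ[1/m]` with
`b_t - a_t ∈ m^N ℤ_(m)`, `N` large (`ℤ[1/m] ∩ ℤ_(m) = ℤ`); `e = ∏ x_ij(b_t) ∈ Δ` and `s = x' e⁻¹` is integral, `≡ 1` mod `K`, so in `Δ`. -/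
def S_SAT_stmt : Prop :=
  ∀ (n : ℕ), 3 ≤ n → ∀ (m : ℕ), 1 ≤ m → ∀ Δ : Subgroup (SLI n m), (Δ.comap (incI n m)).FiniteIndex →
    DenI Δ → ∀ k : ℕ, 1 ≤ k → k.Coprime m →
    (∀ (x : SLI n m) (i j : Fin n) (a : ZI m), i ≠ j →
      (x : Matrix (Fin n) (Fin n) (ZI m)) = 1 + Matrix.single i j ((k : ZI m) * a) → x ∈ Δ) → Δ = ⊤

/-- **S-MAI** (uses S-FORM, S-FINK, S-DEN, S-HFI, S-UNB, S-SAR, S-SAT): the theorem for groups with a linear representation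
of dimension `n` and a rank one element with a unipotent commuting partner.  (S-FORM for `t`; `R` is conjugate to `ρ`, so
the rank, unipotency and the power relation pass to `R`; `Δ = R.range`.) -/
def S_MAI_stmt : Prop :=
  ∀ (n : ℕ), 3 ≤ n → ∀ (Λ : Type) [Group Λ], Group.FG Λ → QuotLe Λ (SLZ n) → RF Λ →
    ∀ (E : Type) [Field E] [CharZero E] (ρ : Λ →* GL (Fin n) E), (Set.range ρ).Infinite →
    ∀ t u : Λ, t * u = u * t → ((ρ t : Matrix (Fin n) (Fin n) E) - 1).rank = 1 →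
      ((ρ u : Matrix (Fin n) (Fin n) E) - 1) ^ n = 0 → (∀ k : ℕ, 0 < k → ∀ j : ℤ, ρ u ^ k ≠ ρ t ^ j) →
      ∃ (m : ℕ) (R : Λ →* SLI n m), 1 ≤ m ∧ Function.Surjective R ∧ Finite R.ker

/-- **S-MAIN** (uses S-TOR, S-NILU, S-DET, S-MAI): the same with a nilpotent subgroup (`ρ` is injective on it by
S-TOR). -/
def S_MAIN_stmt : Prop :=
  ∀ (n : ℕ), 3 ≤ n → ∀ (Λ : Type) [Group Λ], Group.FG Λ → QuotLe Λ (SLZ n) → RF Λ →
    ∀ (E : Type) [Field E] [CharZero E] (ρ : Λ →* GL (Fin n) E), (Set.range ρ).Infinite →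
    ∀ P : Subgroup Λ, NilC (n - 2) P →
      ∃ (m : ℕ) (R : Λ →* SLI n m), 1 ≤ m ∧ Function.Surjective R ∧ Finite R.ker

/-- **S-FIN** (uses S-SYS, S-EXP, S-EXT, S-NILP, S-MAIN, `K_FG_stmt`): the classification. -/
def S_FIN_stmt : Prop :=
  ∀ (n : ℕ), 3 ≤ n → ∀ (L : Type) [Group L], Group.FG L → RF L → QuotLe L (SLZ n) →
    ∀ P : Subgroup L, NilC (n - 2) P →
      ∃ (m : ℕ) (f : L →* (SLI n m) ⧸ Subgroup.center (SLI n m)), 1 ≤ m ∧ Function.Surjective f ∧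
        Finite f.ker

end Pool.Agent.PR
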