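import Mathlib
import Pool.Agent.helper5.PR.SpecS

/-!
# Project pr: (MP_a2a22c_al), EXACT classification (supplement to SpecS)

FINAL (`X_FINAL_stmt`): `n ≥ 3`, `L` a group.  `L` is finitely generated, residually finite, every finite quotient
of `L` is a quotient of `SL(n, ℤ)` and `L` contains a torsion-free nilpotent subgroup of class `≥ n - 1` IF AND ONLY IF
there are `m, d ≥ 1`, every prime divisor of `d` divides `m`, and a surjective homomorphism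
`SL(n, ℤ[1/m]) × SL(n, ℤ/d) → L` with central kernel.  Moreover, if also every finite quotient of `SL(n, ℤ)` is a
quotient of `L` then `L ≃* SL(n, ℤ)`.

Module `pr:X-XXX` proves `theorem X_XXX (hyps) : X_XXX_stmt` in `Pool/Agent/<seat>/PR/X_XXX.lean`, namespace
`Pool.Agent.PR`, auxiliary lemmas with prefix `X_XXX_`.  Useful lemmas on `ZI m`, `ratM`, elementary matrices
over `ZI m`: `Pool/Agent/helper71/PR/S_SAT.lean` (`S_SAT_x`, `S_SAT_rat_x`, `S_SAT_rat_mul`, `S_SAT_rat_inj`,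
`S_SAT_mod`, `S_SAT_dvd`, ...), which may be imported.
-/

set_option autoImplicit false

namespace Pool.Agent.PR

open Matrix

/-- `SL(n, ℤ/d)` -/
abbrev SLd (n d : ℕ) : Type := SpecialLinearGroup (Fin n) (ZMod d)

/-- the reduction `SL(n, ℤ) → SL(n, ℤ/d)` -/
def redZ (n d : ℕ) : SLZ n →* SLd n d := SpecialLinearGroup.map (Int.castRingHom (ZMod d))

/-- `x ≡ 1` modulo `k` over `ℤ[1/m]` -/
def CgI {n m : ℕ} (k : ℕ) (x : SLI n m) : Prop :=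
  ∀ i j, ∃ a : ZI m, ratM x i j - (1 : Matrix (Fin n) (Fin n) ℚ) i j = (k : ℚ) * (a : ℚ)

/-- **X-CRT** (uses `LSA_stmt`): strong approximation with the Chinese remainder theorem (an integer matrix
`≡ γ₁` mod `j`, `≡ γ₂` mod `d` has determinant `≡ 1` mod `j d`). -/
def X_CRT_stmt : Prop :=
  ∀ (n j d : ℕ), 1 ≤ j → 1 ≤ d → j.Coprime d → ∀ γ₁ γ₂ : SLZ n, ∃ γ : SLZ n,
    redZ n j γ = redZ n j γ₁ ∧ redZ n d γ = redZ n d γ₂

/-- **X-RSJ** (uses `LSA_stmt`): `SL(n, ℤ) → SL(n, ℤ/d)` is onto. -/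
def X_RSJ_stmt : Prop := ∀ (n d : ℕ), 1 ≤ d → Function.Surjective (redZ n d)

/-- **X-RED** (uses S-ZI): the reduction `SL(n, ℤ[1/m]) → SL(n, ℤ/k)`, `k` prime to `m` (the ring homomorphism
`ℤ[1/m] → ℤ/k`, `x ↦ num · den⁻¹`, the kernel is `k ℤ[1/m]`). -/
def X_RED_stmt : Prop :=
  ∀ (n m k : ℕ), 1 ≤ m → 1 ≤ k → k.Coprime m → ∃ r : SLI n m →* SLd n k,
    (∀ γ : SLZ n, r (incI n m γ) = redZ n k γ) ∧ ∀ x : SLI n m, r x = 1 ↔ CgI k x

/-- **X-CSI** (uses X-RED, X-RSJ, `M_ALL_stmt`, S-SAT, S-ZI): congruence subgroup property of `SL(n, ℤ[1/m])`.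
Proof.  `k` = the order of `φ (x_01(1))`.  For `s ≥ 0` let `y_s = φ (x_01(1/m^s))`; `y_{s+r} ^ (m^r) = y_s`, so (`r` large) the
order of `y_s` is prime to `m`, hence equal to that of `y_0 = y_s ^ (m^s)`: `y_s ^ k = 1`.  So `φ` kills all
`x_ij(k a)`, `a ∈ ℤ[1/m]` (all `x_ij(a)`, `i ≠ j`, are conjugate to `x_01(± a)` or its inverse in `SL(n, ℤ)`), and by M-ALL the
kernel of `φ ∘ incI` contains `ker (redZ n k)`, so `φ ∘ incI = φ' ∘ redZ`, `φ' : SL(n, ℤ/k) → Q` (X-RSJ).  `r` from X-RED; the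
equalizer `Δ` of `φ` and `φ' ∘ r` contains `incI` of everything (so it is `DenI` and `Δ.comap (incI n m) = ⊤`) and all
`x_ij(k a)`; by S-SAT it is `⊤`.  If `CgI k x` then `φ x = φ' (r x) = 1`. (`n = 0` trivial is excluded by `3 ≤ n`.) -/
def X_CSI_stmt : Prop :=
  ∀ (n : ℕ), 3 ≤ n → ∀ (m : ℕ), 1 ≤ m → ∀ (Q : Type) [Group Q] [Finite Q] (φ : SLI n m →* Q),
    ∃ k : ℕ, 1 ≤ k ∧ k.Coprime m ∧ (∀ x : SLI n m, CgI k x → φ x = 1) ∧
      ∀ x : SLI n m, ∃ γ : SLZ n, φ (incI n m γ) = φ x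

/-- **X-JR** (uses S-JNT, X-RED): the joint transfer in a convenient form.  From S-JNT: `R l ≡ X γ Y` mod `k` in
all `ℤ_q`, `q ∣ k`; `X`, `Y` are inverse to each other, so `R l ≡ 1` mod `k` iff `γ ≡ 1` mod `k` (in the dual case
`sdM` is the transpose of the inverse).  A congruence mod `k` of integers (of elements of `ℤ[1/m]`) is the same as
the congruences in `ℤ_q`, `q ∣ k`. -/
def X_JR_stmt : Prop :=
  ∀ (n : ℕ), 3 ≤ n → ∀ (Λ : Type) [Group Λ], QuotLe Λ (SLZ n) →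
    ∀ (m : ℕ), 1 ≤ m → ∀ (R : Λ →* SLI n m), (Set.range R).Infinite →
      ∃ (S : Sys (SLZ n) Λ),
        (∀ (l : Λ) (M : FiniteIndexNormalSubgroup Λ) (k : ℕ), 1 ≤ k → k.Coprime m → ∃ γ : SLZ n,
          S.g M γ = (l : Λ ⧸ M.toSubgroup) ∧ (CgI k (R l) ↔ redZ n k γ = 1)) ∧
        (∀ (γ : SLZ n) (M : FiniteIndexNormalSubgroup Λ) (k : ℕ), 1 ≤ k → k.Coprime m → ∃ l : Λ,
          S.g M γ = (l : Λ ⧸ M.toSubgroup) ∧ (CgI k (R l) ↔ redZ n k γ = 1))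

/-- `d` bounds the part of the levels composed of the primes dividing `m`, and is attained -/
def LevD {n : ℕ} (hn : 3 ≤ n) {Λ : Type} [Group Λ] (S : Sys (SLZ n) Λ) (m d : ℕ) : Prop :=
  1 ≤ d ∧ (∀ q : ℕ, q.Prime → q ∣ d → q ∣ m) ∧
  (∀ M, ∃ j : ℕ, 1 ≤ j ∧ j.Coprime m ∧ lev hn S M ∣ j * d) ∧
  (∃ M₁ : FiniteIndexNormalSubgroup Λ, ∀ M ≤ M₁, d ∣ lev hn S M)

/-- **X-LEV**: if the levels are bounded at all primes dividing `m` there is such a `d`.  (`lev M ∣ lev M'` for `M' ≤ M`;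
`d = ∏ q ^ e_q`, `e_q` the largest exponent that occurs; intersect the finitely many `M` that attain them.) -/
def X_LEV_stmt : Prop :=
  ∀ (n : ℕ) (hn : 3 ≤ n) (Λ : Type) [Group Λ] (S : Sys (SLZ n) Λ) (m : ℕ), 1 ≤ m →
    (∀ q : ℕ, q.Prime → q ∣ m → ¬ Unb hn S q) → ∃ d : ℕ, LevD hn S m d

/-- **X-DEC** (uses X-CSI, X-CRT, X-RED, S-SAND): decomposition.  `F = ker R`.  Let
`Λ_d = {l : for all M some γ with S.g M γ = l and redZ n d γ = 1}`, a normal subgroup.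
(0) For `M` let `j` be as in `LevD` (`lev M ∣ j d`, `j` prime to `m`, so to `d`); `γ ≡ 1` mod `j` and mod `d` implies
`S.g M γ = 1` by S-SAND (1).
(1) `Λ_d` and `F` commute: `a ∈ Λ_d`, `f ∈ F`: at `M` take `γ_a ≡ 1` mod `d` and (first clause, `R f = 1`) `γ_f ≡ 1` mod `j`:
`[γ_a, γ_f] ≡ 1` mod `j`, `d`, so `[a, f] ∈ M`; all `M`; RF.
(2) `Λ_d ∩ F = 1`: `x` in it, `M` given, `M' = M ⊓ {l : CgI j (R l)}` (finite index normal by X-RED); `γ ≡ 1` mod `d` and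
`δ ≡ 1` mod `j` with `S.g M' γ = x = S.g M' δ`; second clause for `γ δ⁻¹` at `M'`, `j`: `l ∈ M'`, so `CgI j (R l)`, so
`γ δ⁻¹ ≡ 1` mod `j`; hence `γ ≡ 1` mod `j` and mod `d`, `S.g M γ = 1`, `x ∈ M`.
(3) `Λ = Λ_d F`: let `x ∈ Λ`, `T_M = {f ∈ F : ∃ γ, S.g M γ = x f⁻¹, γ ≡ 1 mod d}`, decreasing; `F` is finite, so it is
enough that `T_M ≠ ∅`.  `R(M)` is normal of finite index in `SL(n, ℤ[1/m])` (`R` onto); X-CSI for the quotient:
`k` prime to `m` with `CgI k y → y ∈ R(M)`.  `S.g M γ₀ = x`; X-CRT: `γ₁ ≡ 1` mod `k j`, `≡ γ₀` mod `d`; second clause for `γ₁`, `M`,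
`k`: `l` with `S.g M γ₁ = l`, `CgI k (R l)`, so `R l = R m'`, `m' ∈ M`; `f = l m'⁻¹ ∈ F`, `x f⁻¹ = S.g M (γ₀ γ₁⁻¹)`.
So `R` restricted to `Λ_d` is bijective; `s` is its inverse. -/
def X_DEC_stmt : Prop :=
  ∀ (n : ℕ) (hn : 3 ≤ n) (Λ : Type) [Group Λ], RF Λ → ∀ (m : ℕ), 1 ≤ m → ∀ (R : Λ →* SLI n m),
    Function.Surjective R → Finite R.ker → ∀ (S : Sys (SLZ n) Λ) (d : ℕ), LevD hn S m d →
    (∀ (l : Λ) (M : FiniteIndexNormalSubgroup Λ) (k : ℕ), 1 ≤ k → k.Coprime m → ∃ γ : SLZ n,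
      S.g M γ = (l : Λ ⧸ M.toSubgroup) ∧ (CgI k (R l) ↔ redZ n k γ = 1)) →
    (∀ (γ : SLZ n) (M : FiniteIndexNormalSubgroup Λ) (k : ℕ), 1 ≤ k → k.Coprime m → ∃ l : Λ,
      S.g M γ = (l : Λ ⧸ M.toSubgroup) ∧ (CgI k (R l) ↔ redZ n k γ = 1)) →
    ∃ s : SLI n m →* Λ, (∀ x, R (s x) = x) ∧ ∀ x, ∀ f ∈ R.ker, s x * f = f * s x

/-- **X-FQ** (uses X-CSI, X-CRT, X-RSJ, X-RED, S-SAND): `F = ker R` is a central quotient of `SL(n, ℤ/d)`.  Choose `M ≤ M₁`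
with `M ∩ F = 1` (RF, `F` finite), `j` as in `LevD`.  `A = {γ : γ ≡ 1 mod j}`.  The image of `A` in `Λ ⧸ M` is the image of
`F`: `⊇` by the first clause (`R f = 1`), `⊆`: for `γ ∈ A` take `k` for `R(M)` as in X-DEC (3), `γ₁ ≡ 1` mod `k j`, `≡ γ` mod `d`, so
`S.g M γ₁ = S.g M γ`, and `l`, `f` as there.  `t c` = the element of `F` which is `S.g M γ` mod `M` for any `γ ≡ 1` mod `j`,
`≡ c` mod `d`.  If `t c = 1` then `γ` is scalar mod `lev M` (S-SAND (2)), a multiple of `d`: `c` is scalar, so central. -/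
def X_FQ_stmt : Prop :=
  ∀ (n : ℕ) (hn : 3 ≤ n) (Λ : Type) [Group Λ], RF Λ → ∀ (m : ℕ), 1 ≤ m → ∀ (R : Λ →* SLI n m),
    Function.Surjective R → Finite R.ker → ∀ (S : Sys (SLZ n) Λ) (d : ℕ), LevD hn S m d →
    (∀ (l : Λ) (M : FiniteIndexNormalSubgroup Λ) (k : ℕ), 1 ≤ k → k.Coprime m → ∃ γ : SLZ n,
      S.g M γ = (l : Λ ⧸ M.toSubgroup) ∧ (CgI k (R l) ↔ redZ n k γ = 1)) →
    (∀ (γ : SLZ n) (M : FiniteIndexNormalSubgroup Λ) (k : ℕ), 1 ≤ k → k.Coprime m → ∃ l : Λ,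
      S.g M γ = (l : Λ ⧸ M.toSubgroup) ∧ (CgI k (R l) ↔ redZ n k γ = 1)) →
    ∃ t : SLd n d →* Λ, t.range = R.ker ∧ t.ker ≤ Subgroup.center (SLd n d)

/-- **X-DEN**: `SL(n, ℤ[1/m])` contains elements whose trace has a denominator divisible by a given prime `q ∣ m`
(`x_01(1/q) x_10(1)`, trace `n + 1/q`). -/
def X_DEN_stmt : Prop :=
  ∀ (n m : ℕ), 3 ≤ n → 1 ≤ m → ∀ q : ℕ, q.Prime → q ∣ m → ∃ x : SLI n m, q ∣ (ratM x).trace.den

/-- **X-CQ**: central quotients.  `G = SL(n, ℤ[1/m]) × SL(n, ℤ/d)`, `Φ₀ : G → Λ` onto with central kernel,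
`π : Λ → L` onto with central kernel: the kernel of `π ∘ Φ₀` is central.  Proof: let `y` be in it; `Φ₀ y` is central, so
`[y, z] ∈ ker Φ₀` is central for all `z`, `z ↦ [y, z]` is a homomorphism to a commutative group, trivial on
commutators.  All `(incI γ, redZ n d δ)`, `γ, δ ∈ SL(n, ℤ)` are products of commutators (`SL(n, ℤ)` is perfect), so `y`
commutes with `(incI γ, 1)` and with `(1, redZ n d δ)`; X-RSJ; the first component commutes with all elementary integral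
matrices, so it is scalar, hence central. -/
def X_CQ_stmt : Prop :=
  ∀ (n : ℕ), 3 ≤ n → ∀ (m d : ℕ), 1 ≤ m → 1 ≤ d → ∀ (Λ L : Type) [Group Λ] [Group L]
    (Φ₀ : SLI n m × SLd n d →* Λ) (π : Λ →* L), Function.Surjective Φ₀ →
    Φ₀.ker ≤ Subgroup.center _ → π.ker ≤ Subgroup.center Λ →
    (π.comp Φ₀).ker ≤ Subgroup.center (SLI n m × SLd n d)

/-- **X-CEN** (uses S-SYS, S-EXP, S-EXT, S-NILP, S-MAIN, `K_FG_stmt`; the first part of the proof of `S_FIN`, see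
`Pool/Agent/helper43/PR/S_FIN.lean`): the central extension with its representation. -/
def X_CEN_stmt : Prop :=
  ∀ (n : ℕ), 3 ≤ n → ∀ (L : Type) [Group L], Group.FG L → RF L → QuotLe L (SLZ n) →
    ∀ P : Subgroup L, NilC (n - 2) P →
      ∃ (Λ : Type) (_ : Group Λ) (π : Λ →* L) (m : ℕ) (R : Λ →* SLI n m),
        Group.FG Λ ∧ QuotLe Λ (SLZ n) ∧ RF Λ ∧ Function.Surjective π ∧ π.ker ≤ Subgroup.center Λ ∧
        1 ≤ m ∧ Function.Surjective R ∧ Finite R.ker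

/-- the class of all central quotients of `SL(n, ℤ[1/m]) × SL(n, ℤ/d)` -/
def XQ (n : ℕ) (L : Type) [Group L] : Prop :=
  ∃ (m d : ℕ) (Φ : SLI n m × SLd n d →* L), 1 ≤ m ∧ 1 ≤ d ∧ (∀ q : ℕ, q.Prime → q ∣ d → q ∣ m) ∧
    Function.Surjective Φ ∧ Φ.ker ≤ Subgroup.center (SLI n m × SLd n d)

/-- **X-L** (uses X-CEN, X-JR, X-LEV, X-DEC, X-FQ, X-CQ, X-DEN, S-BND): the direct half.  `Φ₀ (x, c) = s x * t c`; its
kernel: apply `R`: `x = 1`, `t c = 1`, `c` central. -/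
def X_L_stmt : Prop :=
  ∀ (n : ℕ), 3 ≤ n → ∀ (L : Type) [Group L], Group.FG L → RF L → QuotLe L (SLZ n) →
    ∀ P : Subgroup L, NilC (n - 2) P → XQ n L

/-- **X-CFG** (uses S-SAT, S-ZI, `K_FG_stmt`): `SL(n, ℤ[1/m])` is finitely generated: by `incI` of generators of `SL(n, ℤ)` and all
`x_ij(1/m)`: the subgroup `Δ` generated by `incI.range` and the `x_ij(1/m)` contains all `x_ij(1/m^s)`
(`x_ij(a b) = [x_ik(a), x_kj(b)]`), so all `x_ij(a)`, and S-SAT with `k = 1`. -/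
def X_CFG_stmt : Prop := ∀ (n : ℕ), 3 ≤ n → ∀ (m : ℕ), 1 ≤ m → Group.FG (SLI n m)

/-- **X-CQL** (uses X-CSI, X-CRT, X-RSJ): finite quotients of `SL(n, ℤ[1/m]) × SL(n, ℤ/d)`.  Proof: `φ` onto `Q`; `k` from X-CSI
for `φ(·, 1)`; `k` is prime to `d`; `γ ↦ φ (incI γ, redZ γ)` is onto: given `(x, c)` take `γ₁` with `φ(incI γ₁, 1) = φ(x, 1)`, and
`γ ≡ γ₁` mod `k`, `redZ γ = c`; `CgI k (incI (γ γ₁⁻¹))`. -/
def X_CQL_stmt : Prop :=
  ∀ (n : ℕ), 3 ≤ n → ∀ (m d : ℕ), 1 ≤ m → 1 ≤ d → (∀ q : ℕ, q.Prime → q ∣ d → q ∣ m) →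
    QuotLe (SLI n m × SLd n d) (SLZ n)

/-- **X-CRF** (uses X-RED, S-ZI): central quotients of `SL(n, ℤ[1/m]) × SL(n, ℤ/d)` are residually finite.  (`SLI n m` is
residually finite by X-RED; its centre is finite, `S_FIN_center` in helper43/PR/S_FIN.lean; so the kernel `C` of `Φ` is finite; for
`g ∉ C` intersect finitely many finite-index normal subgroups avoiding the elements `c g`, `c ∈ C`.) -/
def X_CRF_stmt : Prop :=
  ∀ (n : ℕ), 3 ≤ n → ∀ (m d : ℕ), 1 ≤ m → 1 ≤ d → ∀ (L : Type) [Group L]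
    (Φ : SLI n m × SLd n d →* L), Function.Surjective Φ →
    Φ.ker ≤ Subgroup.center (SLI n m × SLd n d) → RF L

/-- **X-UNI**: the group of upper unitriangular matrices is a torsion-free nilpotent subgroup of `SL(n, ℤ)` of class
`≥ n - 1`, and meets the centre trivially.  (The `c`-th term of the lower central series contains `x_{0,c+1}(1)`, by
`[x_{0,c}(1), x_{c,c+1}(1)] = x_{0,c+1}(1)`; nilpotent: the `c`-th term consists of matrices with `A i j = 0` for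
`i < j ≤ i + c`; torsion-free: if `A = 1 + N`, `N ≠ 0` strictly upper triangular, look at the first nonzero superdiagonal.) -/
def X_UNI_stmt : Prop :=
  ∀ (n : ℕ), 3 ≤ n → ∃ P : Subgroup (SLZ n), NilC (n - 2) P ∧ P ⊓ Subgroup.center (SLZ n) = ⊥

/-- **X-CNL** (uses X-UNI): central quotients of `SL(n, ℤ[1/m]) × SL(n, ℤ/d)` contain a torsion-free nilpotent subgroup of
class `≥ n - 1`: the image of `P` under `γ ↦ Φ (incI γ, 1)`, which is injective on `P`. -/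
def X_CNL_stmt : Prop :=
  ∀ (n : ℕ), 3 ≤ n → ∀ (m d : ℕ), 1 ≤ m → 1 ≤ d → ∀ (L : Type) [Group L]
    (Φ : SLI n m × SLd n d →* L), Function.Surjective Φ →
    Φ.ker ≤ Subgroup.center (SLI n m × SLd n d) → ∃ P : Subgroup L, NilC (n - 2) P

/-- **X-FINAL** (uses X-L, X-CFG, X-CQL, X-CRF, X-CNL, `LT1_stmt`): the exact classification, with the two-sided case
(`LT1_stmt` of helper48's SpecL, `BigClass`). -/
def X_FINAL_stmt : Prop :=
  ∀ (n : ℕ), 3 ≤ n → ∀ (L : Type) [Group L],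
    ((Group.FG L ∧ RF L ∧ QuotLe L (SLZ n) ∧ ∃ P : Subgroup L, NilC (n - 2) P) ↔ XQ n L) ∧
    (Group.FG L → RF L → QuotLe L (SLZ n) → QuotLe (SLZ n) L → (∃ P : Subgroup L, NilC (n - 2) P) →
      Nonempty (L ≃* SLZ n))

end Pool.Agent.PR
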