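import Mathlib
import Pool.Agent.helper5.PR.SpecX
import Pool.Agent.helper17.PR.SpecN

/-!
# Project pr: (MP_a2a22c_al), part Y: nilpotent subgroups which are not virtually linear of degree `n - 1`

FINAL (`Y_FINAL_stmt`): the exact classification of SpecX with the hypothesis `class ≥ n - 1` replaced by the weaker and
more natural one: `L` contains a finitely generated torsion-free nilpotent subgroup `P` such that no subgroup of finite
index of `P` embeds in `GL(n - 1, E)`, `E` a field of characteristic zero.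

Module `pr:Y-XXX` proves `theorem Y_XXX (hyps) : Y_XXX_stmt` in `Pool/Agent/<seat>/PR/Y_XXX.lean`, namespace
`Pool.Agent.PR`, auxiliary lemmas with prefix `Y_XXX_`.  `InvS`, `TriS`, `resS`, `quoS`: helper17's SpecN.
-/

set_option autoImplicit false

namespace Pool.Agent.PR

open Matrix Module

/-- torsion-free -/
def TFree (P : Type) [Group P] : Prop := ∀ g : P, g ≠ 1 → ∀ k : ℕ, 0 < k → g ^ k ≠ 1

/-- finitely generated torsion-free nilpotent, no subgroup of finite index embeds in `GL(k, E)`, char `E = 0` -/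
def NonEmb (k : ℕ) (P : Type) [Group P] : Prop :=
  Group.FG P ∧ Group.IsNilpotent P ∧ TFree P ∧
    ∀ H : Subgroup P, H.FiniteIndex → ∀ (E : Type) [Field E] [CharZero E] (f : H →* GL (Fin k) E),
      ¬ Function.Injective f

/-- **Y-TORF**: a finitely generated nilpotent torsion group is finite.  (Induction on `i`: `γ_i` has finite index and is
finitely generated (`Subgroup.fg_of_index_ne_zero`), `γ_i ⧸ γ_{i+1}` is a finitely generated abelian torsion group, so finite.) -/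
def Y_TORF_stmt : Prop :=
  ∀ (P : Type) [Group P], Group.FG P → Group.IsNilpotent P → (∀ g : P, ∃ k : ℕ, 0 < k ∧ g ^ k = 1) → Finite P

/-- **Y-POWF** (uses Y-TORF). -/
def Y_POWF_stmt : Prop :=
  ∀ (P : Type) [Group P], Group.FG P → Group.IsNilpotent P → ∀ H : Subgroup P, H.Normal →
    (∀ g : P, ∃ k : ℕ, 0 < k ∧ g ^ k ∈ H) → H.FiniteIndex

/-- **Y-CHAR**: characters of a finitely generated group that are injective on a subgroup which meets the isolator of
the commutator subgroup trivially.  (`Q^ab` modulo torsion is free abelian of rank `r`; send a basis to the first `r`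
primes in `Kˣ`, which are multiplicatively independent.) -/
def Y_CHAR_stmt : Prop :=
  ∀ (K : Type) [Field K] [CharZero K] (Q : Type) [Group Q], Group.FG Q → ∀ K₀ : Subgroup Q,
    (∀ g ∈ K₀, ∀ k : ℕ, 0 < k → g ^ k ∈ commutator Q → g = 1) →
    ∃ θ : Q →* Kˣ, ∀ g ∈ K₀, θ g = 1 → g = 1

/-- **Y-EIG**: a common eigenvector in a nonzero invariant subspace and its character. -/
def Y_EIG_stmt : Prop :=
  ∀ (K V : Type) [Field K] [AddCommGroup V] [Module K V] (Q : Type) [Group Q] (ρ : Q →* Module.End K V), TriS ρ →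
    ∀ W : Submodule K V, InvS ρ W → W ≠ ⊥ →
      ∃ v ∈ W, v ≠ 0 ∧ ∃ χ : Q →* Kˣ, ∀ g, ρ g v = (χ g : K) • v

/-- **Y-SPLIT** (uses N-FIT): some `ρ x` with two eigenvalues gives an invariant decomposition (`W₁` the generalised
eigenspace of one eigenvalue, `W₂` the supremum of the others, `Module.End.iSup_maxGenEigenspace_eq_top`). -/
def Y_SPLIT_stmt : Prop :=
  ∀ (K V : Type) [Field K] [IsAlgClosed K] [AddCommGroup V] [Module K V] [FiniteDimensional K V]
    (Q : Type) [Group Q], Group.IsNilpotent Q → ∀ ρ : Q →* Module.End K V, TriS ρ → ∀ x : Q,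
    (¬ ∃ a : K, IsNilpotent (ρ x - a • (1 : Module.End K V))) →
    ∃ W₁ W₂ : Submodule K V, IsCompl W₁ W₂ ∧ InvS ρ W₁ ∧ InvS ρ W₂ ∧ W₁ ≠ ⊥ ∧ W₂ ≠ ⊥

/-- **Y-GLU**: gluing.  `K₀ = {g : ρ g = χ₁ g on W₁, = χ₂ g on W₂}`.  The operators
`σ g = θ g • (χ₁ g⁻¹ • ρ g on W₁, χ₂ g⁻¹ • ρ g on W₂)` form a homomorphism and fix the line of `v₁ - v₂` (they multiply it by
`θ g`), so they act on `V ⧸ ⟨v₁ - v₂⟩`, of dimension `dim V - 1`.  If `σ g` is trivial on the quotient then for `x ∈ W₁`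
`σ g x - x ∈ W₁ ⊓ ⟨v₁ - v₂⟩ = 0`; for `x = v₁`: `θ g = 1`; so `ρ g = χ₁ g` on `W₁`, likewise on `W₂`: `g ∈ K₀`, `g = 1`.
A basis of the quotient gives matrices. -/
def Y_GLU_stmt : Prop :=
  ∀ (K V : Type) [Field K] [AddCommGroup V] [Module K V] [FiniteDimensional K V] (Q : Type) [Group Q]
    (ρ : Q →* Module.End K V) (W₁ W₂ : Submodule K V), IsCompl W₁ W₂ → InvS ρ W₁ → InvS ρ W₂ →
    ∀ (v₁ v₂ : V) (χ₁ χ₂ θ : Q →* Kˣ), v₁ ∈ W₁ → v₂ ∈ W₂ → v₁ ≠ 0 → v₂ ≠ 0 →
    (∀ g, ρ g v₁ = (χ₁ g : K) • v₁) → (∀ g, ρ g v₂ = (χ₂ g : K) • v₂) →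
    (∀ g, (∀ w ∈ W₁, ρ g w = (χ₁ g : K) • w) → (∀ w ∈ W₂, ρ g w = (χ₂ g : K) • w) → θ g = 1 → g = 1) →
    ∃ f : Q →* GL (Fin (finrank K V - 1)) K, Function.Injective f

/-- **Y-EMB** (uses Y-CHAR, Y-EIG, Y-SPLIT, Y-GLU): if some element has two eigenvalues then the group embeds in
`GL(dim V - 1)`.  (`K₀` as in Y-GLU, a subgroup; if `g ∈ K₀`, `g ^ k ∈ commutator Q` then `χ_i (g ^ k) = 1`, so
`ρ (g ^ k) = 1`, `g ^ k = 1`, `g = 1`.) -/
def Y_EMB_stmt : Prop :=
  ∀ (K V : Type) [Field K] [CharZero K] [IsAlgClosed K] [AddCommGroup V] [Module K V] [FiniteDimensional K V]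
    (Q : Type) [Group Q], Group.FG Q → Group.IsNilpotent Q → TFree Q →
    ∀ ρ : Q →* Module.End K V, TriS ρ → Function.Injective ρ → ∀ x : Q,
    (¬ ∃ a : K, IsNilpotent (ρ x - a • (1 : Module.End K V))) →
    ∃ f : Q →* GL (Fin (finrank K V - 1)) K, Function.Injective f

/-- **Y-SINGLE** (uses Y-EIG, Y-POWF): one eigenvalue.  Proof.  `χ` from Y-EIG with `W = ⊤`; it is the eigenvalue of `ρ g`,
`χ g ^ n = det (ρ g) = 1` (`n = dim V`; `χ g` is the only eigenvalue: `det` = constant coefficient of the characteristic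
polynomial `(X - χ g) ^ n`).  `Q₁ = ker χ` has finite index (`χ` has finite range: roots of `X ^ n - 1`), is unipotent and fixes `v`.
`Q₁` acts on `V ⧸ ⟨v⟩`, of dimension `n - 1`; by hypothesis the kernel `N` is not trivial; it is normal in the nilpotent
group `Q₁`, so it contains `t ≠ 1` in the centre of `Q₁`; the range of `ρ t - 1` is the line of `v`.  If every `u ∈ Q₁` had
`u ^ k ∈ ⟨t⟩` for some `k > 0` then `⟨t⟩` (normal in `Q₁`) would have finite index in `Q₁` by Y-POWF (`Q₁` is finitely generated),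
so in `Q`, and `⟨t⟩ ≅ ℤ` embeds in `GL(n - 1, K)`, `n ≥ 2` (`t ↦ 2`, scalar). -/
def Y_SINGLE_stmt : Prop :=
  ∀ (K V : Type) [Field K] [CharZero K] [AddCommGroup V] [Module K V] [FiniteDimensional K V]
    (Q : Type) [Group Q], 3 ≤ finrank K V → NonEmb (finrank K V - 1) Q →
    ∀ ρ : Q →* Module.End K V, TriS ρ → Function.Injective ρ → (∀ g, LinearMap.det (ρ g) = 1) →
    (∀ g : Q, ∃ a : K, IsNilpotent (ρ g - a • (1 : Module.End K V))) →
    ∃ t u : Q, t * u = u * t ∧ finrank K (LinearMap.range (ρ t - 1)) = 1 ∧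
      (∀ k : ℕ, 0 < k → ∀ m : ℤ, u ^ k ≠ t ^ m) ∧ (ρ u - 1) ^ (finrank K V) = 0

/-- **Y-NILU** (uses N-TRI, Y-POWF, Y-EMB, Y-SINGLE; `rank_map_ext` in helper17/PR/RKX.lean; compare
helper45/PR/N_NILU.lean).  Proof.  `K = AlgebraicClosure F`, `V = Fin n → K`; `H` = the subgroup generated by the powers
in N-TRI, normal, of finite index (Y-POWF), so `NonEmb (n - 1) H`.  `TriS` on `H`.  Y-EMB would contradict `NonEmb`, so
Y-SINGLE applies to `H`. -/
def Y_NILU_stmt : Prop :=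
  ∀ (n : ℕ), 3 ≤ n → ∀ (F : Type) [Field F] [CharZero F] (P : Type) [Group P], NonEmb (n - 1) P →
    ∀ ρ : P →* Matrix (Fin n) (Fin n) F, Function.Injective ρ → (∀ x, (ρ x).det = 1) →
      ∃ t u : P, t * u = u * t ∧ (ρ t - 1).rank = 1 ∧ (∀ k : ℕ, 0 < k → ∀ m : ℤ, u ^ k ≠ t ^ m) ∧
        (ρ u - 1) ^ n = 0

/-- **Y-PULL**: pull back along a surjection with finite kernel.  `W` normal of finite index in `Λ` with `W ∩ ker π = 1`
(RF); `P' = π⁻¹(P) ⊓ W` embeds in `P` with image of finite index. -/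
def Y_PULL_stmt : Prop :=
  ∀ (Λ L : Type) [Group Λ] [Group L] (π : Λ →* L), Function.Surjective π → Finite π.ker → RF Λ →
    ∀ (k : ℕ) (P : Subgroup L), NonEmb k P → ∃ P' : Subgroup Λ, NonEmb k P'

/-- **Y-CEN** (uses S-SYS, S-EXP, S-EXT, S-TOR, S-DET, S-MAI, Y-PULL, Y-NILU, `K_FG_stmt`): as X-CEN, with `NonEmb`.
(First part as in `Pool/Agent/helper43/PR/S_FIN.lean`; second part as in `Pool/Agent/helper5/PR/S_MAIN.lean`.  `L` is infinite
since `P` is torsion-free and not trivial: the trivial group embeds in everything.) -/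
def Y_CEN_stmt : Prop :=
  ∀ (n : ℕ), 3 ≤ n → ∀ (L : Type) [Group L], Group.FG L → RF L → QuotLe L (SLZ n) →
    ∀ P : Subgroup L, NonEmb (n - 1) P →
      ∃ (Λ : Type) (_ : Group Λ) (π : Λ →* L) (m : ℕ) (R : Λ →* SLI n m),
        Group.FG Λ ∧ QuotLe Λ (SLZ n) ∧ RF Λ ∧ Function.Surjective π ∧ π.ker ≤ Subgroup.center Λ ∧
        1 ≤ m ∧ Function.Surjective R ∧ Finite R.ker

/-- **Y-L** (as X-L). -/
def Y_L_stmt : Prop :=
  ∀ (n : ℕ), 3 ≤ n → ∀ (L : Type) [Group L], Group.FG L → RF L → QuotLe L (SLZ n) →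
    ∀ P : Subgroup L, NonEmb (n - 1) P → XQ n L

/-- **Y-UNI** (uses N-TRI, N-SPL, N-POW, X-UNI): the unitriangular group is not virtually linear of degree `n - 1`.
Proof.  `P` = the subgroup generated by the `n - 1` elements `1 + E_{i,i+1}` (finitely generated by definition); it is
contained in the group of upper unitriangular matrices (`Pool/Agent/helper21/PR/X_UNI.lean`), so `TFree`, nilpotent, meets
the centre trivially, and the term `n - 2` of its lower central series contains `1 + E_{0,n-1}`.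
Let `H` have finite index, `f : H →* GL (Fin (n - 1)) E` injective, `K` the algebraic closure of `E`, `H'` the subgroup of
`H` generated by the powers in N-TRI.  By N-SPL (1) (dimension `n - 1 ≥ 2`) the term `n - 2` of the lower central series of `H'`
is trivial.  By N-POW (`H' ≤ P` contains a power of every element of `P`; apply it with the exact class of `P`) it is not. -/
def Y_UNI_stmt : Prop :=
  ∀ (n : ℕ), 3 ≤ n → ∃ P : Subgroup (SLZ n), NonEmb (n - 1) P ∧ P ⊓ Subgroup.center (SLZ n) = ⊥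

/-- **Y-CNL** (uses Y-UNI; as X-CNL). -/
def Y_CNL_stmt : Prop :=
  ∀ (n : ℕ), 3 ≤ n → ∀ (m d : ℕ), 1 ≤ m → 1 ≤ d → ∀ (L : Type) [Group L]
    (Φ : SLI n m × SLd n d →* L), Function.Surjective Φ →
    Φ.ker ≤ Subgroup.center (SLI n m × SLd n d) → ∃ P : Subgroup L, NonEmb (n - 1) P

/-- **Y-TWO** (uses X-CNL, `LT1_stmt`): the two-sided case (by X-CNL the central quotient contains a nilpotent group of
class `≥ n - 1`, then `LT1_stmt`). -/
def Y_TWO_stmt : Prop :=
  ∀ (n : ℕ), 3 ≤ n → ∀ (L : Type) [Group L], Group.FG L → RF L → QuotLe L (SLZ n) → QuotLe (SLZ n) L →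
    XQ n L → Nonempty (L ≃* SLZ n)

/-- **Y-FINAL** (uses Y-L, X-CFG, X-CQL, X-CRF, Y-CNL, Y-TWO): the exact classification. -/
def Y_FINAL_stmt : Prop :=
  ∀ (n : ℕ), 3 ≤ n → ∀ (L : Type) [Group L],
    ((Group.FG L ∧ RF L ∧ QuotLe L (SLZ n) ∧ ∃ P : Subgroup L, NonEmb (n - 1) P) ↔ XQ n L) ∧
    (Group.FG L → RF L → QuotLe L (SLZ n) → QuotLe (SLZ n) L → (∃ P : Subgroup L, NonEmb (n - 1) P) →
      Nonempty (L ≃* SLZ n))

end Pool.Agent.PR
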