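import Mathlib
import Pool.Agent.helper5.PR.SpecY

/-!
# Project pr: (MP_a2a22c_al), part Z: solvable subgroups which are not virtually linear of degree `n - 1`

FINAL (`Z_FINAL_stmt`): the exact classification with the hypothesis: `L` contains a finitely generated torsion-free
SOLVABLE subgroup `P` such that no subgroup of finite index of `P` embeds in `GL(n - 1, E)`, `E` a field of
characteristic zero.

Module `pr:Z-XXX` proves `theorem Z_XXX (hyps) : Z_XXX_stmt` in `Pool/Agent/<seat>/PR/Z_XXX.lean`, namespace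
`Pool.Agent.PR`, auxiliary lemmas with prefix `Z_XXX_`.  `InvS`, `TriS`, `resS`, `quoS`: helper17's SpecN.
-/

set_option autoImplicit false

namespace Pool.Agent.PR

open Matrix Module

/-- finitely generated torsion-free solvable, no subgroup of finite index embeds in `GL(k, E)`, char `E = 0` -/
def NonEmbS (k : ℕ) (P : Type) [Group P] : Prop :=
  Group.FG P ∧ Group.IsSolvable P ∧ TFree P ∧
    ∀ H : Subgroup P, H.FiniteIndex → ∀ (E : Type) [Field E] [CharZero E] (f : H →* GL (Fin k) E),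
      ¬ Function.Injective f

/-- `v` is a common eigenvector of the elements of `H` -/
def EigV {K V Q : Type} [Field K] [AddCommGroup V] [Module K V] [Group Q] (ρ : Q →* Module.End K V)
    (H : Subgroup Q) (v : V) : Prop := ∀ g ∈ H, ∃ c : K, ρ g v = c • v

/-- **Z-FC**: if a finite-index subgroup `H` of the commutator subgroup `D` acts by scalars there is a common eigenvector
for a finite-index subgroup.  Proof.  Call `x ~ y` if `ρ x`, `ρ y` differ by a scalar; `D` has finitely many classes.  Let `C` be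
the subgroup of all `x` that commute with every element of `D` modulo scalars: finite index (`x ↦ (x δ_i x⁻¹)` modulo scalars
for representatives `δ_i` of `D` modulo `H ⊓ ker`, finitely many possibilities).  Among all pairs (finite-index subgroup `C₁ ≤ C`,
nonzero `C₁`-invariant subspace) take one with the dimension `d` of the subspace `W` minimal; then `W` is irreducible for every
finite-index subgroup of `C₁`.  Let `x ∈ C₁`.  `y ↦ [x, y]` modulo scalars is a homomorphism on `C₁` (`[x, y z] = [x, y] y [x, z] y⁻¹` and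
`y` commutes with `[x, z] ∈ D` modulo scalars) with finite range: on its kernel, of finite index, `[x, y]` is a scalar `λ(y)` on
`W`, `λ` is a homomorphism, `λ(y) ^ d = 1` (determinant on `W`): on a subgroup `C₂` of finite index `x` commutes with `y` on `W`.
An eigenspace of `x` on `W` is `C₂`-invariant, so it is `W`: every `x ∈ C₁` is a scalar on `W`; so `d = 1`. -/
def Z_FC_stmt : Prop :=
  ∀ (K V : Type) [Field K] [IsAlgClosed K] [AddCommGroup V] [Module K V] [FiniteDimensional K V]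
    [Nontrivial V] (Q : Type) [Group Q] (ρ : Q →* Module.End K V) (H : Subgroup Q),
    H ≤ commutator Q → H.relIndex (commutator Q) ≠ 0 → (∀ h ∈ H, ∃ c : K, ρ h = c • (1 : Module.End K V)) →
    ∃ G₁ : Subgroup Q, G₁.FiniteIndex ∧ ∃ v : V, v ≠ 0 ∧ EigV ρ G₁ v

/-- **Z-STAB**: passing from a normal subgroup `D` to the group.  If a subgroup `D₁` of finite index of `D` has a common
eigenvector then there are a finite-index subgroup `P₁` of `Q`, a nonzero `P₁`-invariant subspace `W` and a subgroup `H` of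
finite index of `D` acting by scalars on `W`.  Proof.  For `H ≤ D` of finite index let `V₀(H)` be the span of all common
eigenvectors of `H`, the direct sum of the weight spaces `V_χ(H)`; `H₁ ≤ H` implies `V₀(H) ≤ V₀(H₁)`.  Choose `H` with
`dim V₀(H)` maximal, and among these with the number of weights minimal (it does not increase for `H₁ ≤ H`, since then
`V₀(H₁) = V₀(H)` and every `V_χ(H)` is contained in one `V_χ'(H₁)`).  For `p ∈ Q` compare `H` and `p H p⁻¹` with their intersection: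
`V₀(p H p⁻¹) = p V₀(H)` has the same maximal dimension, so `p V₀ = V₀`, and the decompositions of `V₀` for `H`, `H ⊓ p H p⁻¹`,
`p H p⁻¹` are the same, so `p` permutes the finitely many weight spaces; a finite-index subgroup `P₁` preserves one of them. -/
def Z_STAB_stmt : Prop :=
  ∀ (K V : Type) [Field K] [AddCommGroup V] [Module K V] [FiniteDimensional K V]
    (Q : Type) [Group Q] (ρ : Q →* Module.End K V) (D D₁ : Subgroup Q), D.Normal → D₁ ≤ D →
    D₁.relIndex D ≠ 0 → (∃ v : V, v ≠ 0 ∧ EigV ρ D₁ v) →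
    ∃ (P₁ H : Subgroup Q) (W : Submodule K V), P₁.FiniteIndex ∧ H ≤ D ∧ H.relIndex D ≠ 0 ∧ W ≠ ⊥ ∧
      (∀ g ∈ P₁, ∀ w ∈ W, ρ g w ∈ W) ∧ ∀ h ∈ H, ∃ c : K, ∀ w ∈ W, ρ h w = c • w

/-- **Z-MAL1** (uses Z-FC, Z-STAB): Mal'cev.  Induction on the derived length: apply the induction hypothesis to
`commutator Q` (as a group), Z-STAB with `D = commutator Q`, and Z-FC to the action of `P₁` on `W` with the subgroup
`H ⊓ commutator P₁` (of finite index in the commutator subgroup of `P₁`, which is contained in `D`). -/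
def Z_MAL1_stmt : Prop :=
  ∀ (K V : Type) [Field K] [IsAlgClosed K] [AddCommGroup V] [Module K V] [FiniteDimensional K V]
    [Nontrivial V] (Q : Type) [Group Q], Group.IsSolvable Q → ∀ ρ : Q →* Module.End K V,
    ∃ G₁ : Subgroup Q, G₁.FiniteIndex ∧ ∃ v : V, v ≠ 0 ∧ EigV ρ G₁ v

/-- **Z-MAL** (uses Z-MAL1): a solvable linear group has a triangularisable subgroup of finite index.  (Induction on the
dimension with `V ⧸ ⟨v⟩` gives a finite-index subgroup `G₁` and a full flag `0 = V_0 < ... < V_n = V` of invariant subspaces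
on whose steps every `g ∈ G₁` acts by a scalar; given invariant `W < U` take the least `i` with `¬ V_i ⊓ U ≤ W` and
`v ∈ V_i ⊓ U`, `v ∉ W`: `ρ g v - c • v ∈ V_{i-1} ⊓ U ≤ W`.) -/
def Z_MAL_stmt : Prop :=
  ∀ (K V : Type) [Field K] [IsAlgClosed K] [AddCommGroup V] [Module K V] [FiniteDimensional K V]
    (Q : Type) [Group Q], Group.IsSolvable Q → ∀ ρ : Q →* Module.End K V,
    ∃ G₁ : Subgroup Q, G₁.FiniteIndex ∧ TriS (ρ.comp G₁.subtype)

/-- **Z-UNIP** (uses N-UNI): the unipotent elements of a triangularisable group form a normal subgroup containing the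
commutators, which is nilpotent if `ρ` is injective.  (Every step `U / W` of a full flag gives a character; an element is
unipotent iff all characters are `1` on it.  N-UNI for the restriction to the subgroup (`TriS` for a subgroup: same flag): the
term `k = dim V` of the lower central series acts trivially.) -/
def Z_UNIP_stmt : Prop :=
  ∀ (K V : Type) [Field K] [AddCommGroup V] [Module K V] [FiniteDimensional K V] (Q : Type) [Group Q]
    (ρ : Q →* Module.End K V), TriS ρ → Function.Injective ρ →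
    ∃ U : Subgroup Q, U.Normal ∧ commutator Q ≤ U ∧ (∀ g : Q, g ∈ U ↔ IsNilpotent (ρ g - 1)) ∧
      Group.IsNilpotent U

/-- **Z-AFF** (uses Y-CHAR): the affine embedding.  `U` normal, `Q / U` abelian (`commutator Q ≤ U`), `c : U → K` an injective
homomorphism to the additive group, `ψ` a character with `c (g u g⁻¹) = ψ g * c u`, `ψ g₀ ≠ 1`.  Then `Q` embeds in `GL(k, K)` for
all `k ≥ 2`.  Proof.  `β g = c (g g₀ g⁻¹ g₀⁻¹)`, `β (g h) = β g + ψ g * β h` (`[g h, g₀] = g [h, g₀] g⁻¹ [g, g₀]`), `b g = β g / (1 - ψ g₀)`, so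
`b u = c u` for `u ∈ U`.  `α g = !![ψ g, b g; 0, 1]`.  `K₀ = {g : ψ g = 1, b g = 0}`; if `g ∈ K₀`, `g ^ k ∈ commutator Q ≤ U` then
`c (g ^ k) = b (g ^ k) = k b g = 0`, `g ^ k = 1`, `g = 1`.  `θ` from Y-CHAR for `K₀`; `g ↦ θ g • α g` is injective.  For `k > 2` add a
block `1`: the matrix `diag(θ g • α g, 1, ..., 1)`. -/
def Z_AFF_stmt : Prop :=
  ∀ (K : Type) [Field K] [CharZero K] (Q : Type) [Group Q], Group.FG Q → TFree Q → ∀ U : Subgroup Q, U.Normal →
    commutator Q ≤ U → ∀ (c : U → K) (ψ : Q →* Kˣ), (∀ u u' : U, c (u * u') = c u + c u') →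
    Function.Injective c → (∀ (g : Q) (u u' : U), (u' : Q) = g * u * g⁻¹ → c u' = (ψ g : K) * c u) →
    (∃ g₀ : Q, ψ g₀ ≠ 1) → ∀ k : ℕ, 2 ≤ k → ∃ f : Q →* GL (Fin k) K, Function.Injective f

/-- **Z-TRV** (uses Z-UNIP, Z-AFF, Y-EIG): triangularisable solvable groups.  Either a finite-index subgroup is nilpotent,
or there is a pair.  Proof.  `n = dim V ≥ 3`.  `v` a common eigenvector (Y-EIG), `N` = the kernel of the action on `V ⧸ ⟨v⟩`, of
dimension `n - 1`: `N ≠ 1` by `NonEmbS`; for `g ∈ N` the determinant is the eigenvalue on `v`, so `ρ g v = v` and the range of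
`ρ g - 1` is the line of `v` (`g ≠ 1`).  `U` from Z-UNIP, `N ≤ U` normal, so there is `1 ≠ t ∈ N` in the centre of `U`.  If some
`u ∈ U` has no power `u ^ k`, `k > 0`, in `⟨t⟩` we are done.  Otherwise for `u ∈ U`, `u ^ k = t ^ j`, `ρ u = 1 + (j / k) (ρ t - 1)`
(both sides are unipotent and have the same `k`-th power, `(ρ t - 1) ^ 2 = 0`); `c u = j / k` is well defined, additive and
injective.  `g t g⁻¹ ∈ U`, so `ρ g (ρ t - 1) ρ g⁻¹ = ψ g • (ρ t - 1)`, `ψ g = c (g t g⁻¹)`, a character `Q →* Kˣ`, and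
`c (g u g⁻¹) = ψ g * c u`.  If `ψ ≠ 1` Z-AFF contradicts `NonEmbS` (`n - 1 ≥ 2`).  If `ψ = 1` then `U` is central (`ρ` injective) and
`Q / U` is abelian: `Q` is nilpotent. -/
def Z_TRV_stmt : Prop :=
  ∀ (K V : Type) [Field K] [CharZero K] [AddCommGroup V] [Module K V] [FiniteDimensional K V]
    (Q : Type) [Group Q], 3 ≤ finrank K V → NonEmbS (finrank K V - 1) Q →
    ∀ ρ : Q →* Module.End K V, TriS ρ → Function.Injective ρ → (∀ g, LinearMap.det (ρ g) = 1) →
    Group.IsNilpotent Q ∨ ∃ t u : Q, t * u = u * t ∧ finrank K (LinearMap.range (ρ t - 1)) = 1 ∧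
      (∀ k : ℕ, 0 < k → ∀ m : ℤ, u ^ k ≠ t ^ m) ∧ (ρ u - 1) ^ (finrank K V) = 0

/-- **Z-NILU** (uses Z-MAL, Z-TRV, Y-NILU; extension of scalars as in Y-NILU): `K = AlgebraicClosure F`; Z-MAL gives
`H` of finite index in `P`, `NonEmbS (n - 1) H`; Z-TRV for `H`; if `H` is nilpotent use Y-NILU for `H`. -/
def Z_NILU_stmt : Prop :=
  ∀ (n : ℕ), 3 ≤ n → ∀ (F : Type) [Field F] [CharZero F] (P : Type) [Group P], NonEmbS (n - 1) P →
    ∀ ρ : P →* Matrix (Fin n) (Fin n) F, Function.Injective ρ → (∀ x, (ρ x).det = 1) →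
      ∃ t u : P, t * u = u * t ∧ (ρ t - 1).rank = 1 ∧ (∀ k : ℕ, 0 < k → ∀ m : ℤ, u ^ k ≠ t ^ m) ∧
        (ρ u - 1) ^ n = 0

/-- **Z-PULL** (as Y-PULL). -/
def Z_PULL_stmt : Prop :=
  ∀ (Λ L : Type) [Group Λ] [Group L] (π : Λ →* L), Function.Surjective π → Finite π.ker → RF Λ →
    ∀ (k : ℕ) (P : Subgroup L), NonEmbS k P → ∃ P' : Subgroup Λ, NonEmbS k P'

/-- **Z-CEN** (as Y-CEN; uses S-SYS, S-EXP, S-EXT, S-TOR, S-DET, S-MAI, Z-PULL, Z-NILU, `K_FG_stmt`). -/
def Z_CEN_stmt : Prop :=
  ∀ (n : ℕ), 3 ≤ n → ∀ (L : Type) [Group L], Group.FG L → RF L → QuotLe L (SLZ n) →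
    ∀ P : Subgroup L, NonEmbS (n - 1) P →
      ∃ (Λ : Type) (_ : Group Λ) (π : Λ →* L) (m : ℕ) (R : Λ →* SLI n m),
        Group.FG Λ ∧ QuotLe Λ (SLZ n) ∧ RF Λ ∧ Function.Surjective π ∧ π.ker ≤ Subgroup.center Λ ∧
        1 ≤ m ∧ Function.Surjective R ∧ Finite R.ker

/-- **Z-L** (as X-L, Y-L). -/
def Z_L_stmt : Prop :=
  ∀ (n : ℕ), 3 ≤ n → ∀ (L : Type) [Group L], Group.FG L → RF L → QuotLe L (SLZ n) →
    ∀ P : Subgroup L, NonEmbS (n - 1) P → XQ n L

/-- **Z-FINAL** (uses Z-L, X-CFG, X-CQL, X-CRF, Y-CNL, Y-TWO; nilpotent groups are solvable): the exact classification. -/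
def Z_FINAL_stmt : Prop :=
  ∀ (n : ℕ), 3 ≤ n → ∀ (L : Type) [Group L],
    ((Group.FG L ∧ RF L ∧ QuotLe L (SLZ n) ∧ ∃ P : Subgroup L, NonEmbS (n - 1) P) ↔ XQ n L) ∧
    (Group.FG L → RF L → QuotLe L (SLZ n) → QuotLe (SLZ n) L → (∃ P : Subgroup L, NonEmbS (n - 1) P) →
      Nonempty (L ≃* SLZ n))

end Pool.Agent.PR
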