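import Pool.Agent.helper48.PR.AsmM
import Pool.Agent.helper48.PR.AsmC
import Pool.Agent.helper25.PR.K_HOM
import Pool.Agent.helper38.PR.K_TR
import Pool.Agent.helper24.PR.K_AI
import Pool.Agent.helper3.PR.K_TB
import Pool.Agent.helper3.PR.K_EXT
import Pool.Agent.helper71.PR.K_INT
import Pool.Agent.helper8.PR.K_EMB
import Pool.Agent.helper21.PR.K_NR
import Pool.Agent.helper91.PR.K_QNR
import Pool.Agent.helper18.PR.K_TOP
import Pool.Agent.helper18.PR.K_CLO
import Pool.Agent.helper13.PR.K_REG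
import Pool.Agent.helper95.PR.K_BLK
import Pool.Agent.helper18.PR.K_REAL
import Pool.Agent.helper59.PR.K_FG
import Pool.Agent.helper9.PR.K_AC
import Pool.Agent.helper18.PR.K_BC
import Pool.Agent.helper71.PR.K_RAT
import Pool.Agent.helper63.PR.K_CMP
import Pool.Agent.helper50.PR.K_TRACE

/-!
Project pr: assembly of part K: transfer `TR_stmt`, embeddings, rationality of the traces `K_RAT_stmt`,
comparison `K_CMP_stmt`, and `TRACE_stmt`.
-/

namespace Pool.Agent.PR

theorem tTR : TR_stmt := K_TR K_HOM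
theorem tK_BLK : K_BLK_stmt := K_BLK K_REG
theorem tK_EMB : K_EMB_stmt := K_EMB K_AI K_TB K_EXT K_INT
theorem tK_REAL : K_REAL_stmt := K_REAL tTR K_TOP K_CLO tK_BLK
theorem tK_AC : K_AC_stmt := K_AC tK_REAL K_FG tCL
theorem tK_RAT : K_RAT_stmt := K_RAT tK_AC tK_EMB (K_QNR K_NR) K_BC
theorem tK_CMP : K_CMP_stmt := K_CMP tK_AC tK_EMB K_BC tK_RAT
theorem tTRACE : TRACE_stmt := K_TRACE tK_CMP

end Pool.Agent.PR
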