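import Pool.Agent.helper5.PR.SpecS
import Pool.Agent.helper17.PR.RKX

set_option autoImplicit false

namespace Pool.Agent.PR

open Matrix

theorem S_MAI_rank {n : ℕ} {F : Type} [Field F] (x y A : Matrix (Fin n) (Fin n) F) (hyx : y * x = 1)
    (hA : (x * A * y).rank = 1) : A.rank = 1 := by
  have h1 : (x * A * y).rank ≤ A.rank :=
    (rank_mul_le_left _ _).trans (rank_mul_le_right _ _)
  have h2 : A = y * (x * A * y) * x := by
    calc A = (y * x) * A * (y * x) := by rw [hyx, one_mul, mul_one]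
      _ = _ := by noncomm_ring
  have h3 : A.rank ≤ (x * A * y).rank := by
    calc A.rank = (y * (x * A * y) * x).rank := congrArg Matrix.rank h2
      _ ≤ (x * A * y).rank := (rank_mul_le_left _ _).trans (rank_mul_le_right _ _)
  omega

theorem S_MAI (hFORM : S_FORM_stmt) (hFINK : S_FINK_stmt) (hDEN : S_DEN_stmt) (hHFI : S_HFI_stmt)
    (hUNB : S_UNB_stmt) (hSAR : S_SAR_stmt) (hSAT : S_SAT_stmt) : S_MAI_stmt := by
  intro n hn Λ _ hFG hQ hRF E _ _ ρ hρ t u htu hrk huni hpow
  obtain ⟨m, R, x, y, hm, hxy, hyx, hR, hbad⟩ := hFORM n hn Λ hFG hQ E ρ hρ t hrk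
  -- the range of R is infinite
  have hRinf : (Set.range R).Infinite := by
    intro hfin
    refine hρ ?_
    have h1 : (Set.range fun l => (ρ l : Matrix (Fin n) (Fin n) E)) ⊆
        (fun z : SLI n m => x * (ratM z).map (fun a => (a : E)) * y) '' Set.range R := by
      rintro _ ⟨l, rfl⟩
      exact ⟨R l, ⟨l, rfl⟩, (hR l).symm⟩
    have h2 := (hfin.image (fun z : SLI n m => x * (ratM z).map (fun a => (a : E)) * y)).subset h1
    have h3 : (Set.range fun l => (ρ l : Matrix (Fin n) (Fin n) E)) =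
        (fun g : GL (Fin n) E => (g : Matrix (Fin n) (Fin n) E)) '' Set.range ρ := by
      rw [← Set.range_comp]; rfl
    rw [h3] at h2
    exact h2.of_finite_image (Units.val_injective.injOn)
  -- difference with one
  have hsub : ∀ l, (ρ l : Matrix (Fin n) (Fin n) E) - 1 =
      x * ((ratM (R l) - 1).map (Rat.castHom E)) * y := by
    intro l
    rw [hR l]
    have h1 : ((ratM (R l) - 1).map (Rat.castHom E)) = (ratM (R l)).map (fun a => (a : E)) - 1 := by
      ext i j
      simp [Matrix.sub_apply, Matrix.one_apply]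
      split_ifs <;> simp
    rw [h1, mul_sub, sub_mul, mul_one, hxy]
  have hrkR : (ratM (R t) - 1).rank = 1 := by
    rw [hsub t] at hrk
    have h1 := S_MAI_rank x y _ hyx hrk
    rwa [rank_map_ext] at h1
  have huniR : (ratM (R u) - 1) ^ n = 0 := by
    rw [hsub u] at huni
    have hp : ∀ (A : Matrix (Fin n) (Fin n) E) (k : ℕ), (x * A * y) ^ k = x * A ^ k * y := by
      intro A k
      induction k with
      | zero => simp [hxy]
      | succ k ih =>
        rw [pow_succ, ih, pow_succ]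
        calc x * A ^ k * y * (x * A * y) = x * A ^ k * (y * x) * A * y := by noncomm_ring
          _ = x * (A ^ k * A) * y := by rw [hyx]; noncomm_ring
    rw [hp] at huni
    have h1 : ((ratM (R u) - 1).map (Rat.castHom E)) ^ n = 0 := by
      calc ((ratM (R u) - 1).map (Rat.castHom E)) ^ n
          = (y * x) * ((ratM (R u) - 1).map (Rat.castHom E)) ^ n * (y * x) := by
            rw [hyx, one_mul, mul_one]
        _ = y * (x * ((ratM (R u) - 1).map (Rat.castHom E)) ^ n * y) * x := by noncomm_ring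
        _ = 0 := by rw [huni]; simp
    have h2 : ((Rat.castHom E).mapMatrix ((ratM (R u) - 1) ^ n)) = 0 := by
      rw [map_pow]
      exact h1
    ext i j
    have h3 := congrFun (congrFun h2 i) j
    simpa using h3
  have hcomm : R t * R u = R u * R t := by rw [← map_mul, htu, map_mul]
  have hpowR : ∀ k : ℕ, 0 < k → ∀ j : ℤ, R u ^ k ≠ R t ^ j := by
    intro k hk j h
    refine hpow k hk j ?_
    have h1 : R (u ^ k) = R (t ^ j) := by rw [map_pow, map_zpow, h]
    have h2 : (ρ (u ^ k) : Matrix (Fin n) (Fin n) E) = (ρ (t ^ j) : Matrix (Fin n) (Fin n) E) := by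
      rw [hR, hR, h1]
    have h3 := Units.ext h2
    rwa [map_pow, map_zpow] at h3
  have hDenR : DenI R.range := hDEN n hn Λ hQ m hm R hRinf
  have hfi : (R.range.comap (incI n m)).FiniteIndex :=
    hHFI n hn m hm R.range hDenR (R t) ⟨t, rfl⟩ (R u) ⟨u, rfl⟩ hcomm hrkR huniR hpowR
  have hunb : ∀ q : ℕ, q.Prime → q ∣ m → ∀ r : ℕ, ∃ x ∈ R.range, ∃ i j, q ^ r ∣ (ratM x i j).den := by
    intro q hq hqm
    obtain ⟨l, hl⟩ := hbad q hq hqm
    exact hUNB n m hm R.range q hq ⟨R l, ⟨l, rfl⟩, hl⟩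
  obtain ⟨k, hk1, hkm, hk⟩ := hSAR n hn m hm R.range hfi hunb
  have htop := hSAT n hn m hm R.range hfi hDenR k hk1 hkm hk
  exact ⟨m, R, hm, MonoidHom.range_eq_top.1 htop, hFINK n hn Λ hFG hQ hRF m hm R hRinf hbad⟩

end Pool.Agent.PR
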