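import Pool.Agent.helper5.PR.SpecS

set_option autoImplicit false

namespace Pool.Agent.PR

open Matrix

theorem S_MAIN (hTOR : S_TOR_stmt) (hNILU : S_NILU_stmt) (hDET : S_DET_stmt) (hMAI : S_MAI_stmt) :
    S_MAIN_stmt := by
  intro n hn Λ _ hFG hQ hRF E _ _ ρ hρ P hP
  obtain ⟨e, he, htor⟩ := hTOR n hn Λ hFG hQ hRF E ρ hρ
  -- restriction of ρ to P
  have hinj0 : ∀ x : P, ρ (x : Λ) = 1 → x = 1 := by
    intro x hx
    by_contra hne
    have h1 := htor (x : Λ) hx
    exact hP.2.1 x hne e he (Subtype.ext (by simpa using h1))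
  let r : P →* Matrix (Fin n) (Fin n) E := (Units.coeHom _).comp (ρ.comp P.subtype)
  have hr : ∀ x : P, r x = ((ρ (x : Λ) : GL (Fin n) E) : Matrix (Fin n) (Fin n) E) := fun x => rfl
  have hρinj : ∀ x y : P, ρ (x : Λ) = ρ (y : Λ) → x = y := by
    intro x y h
    have h1 : ρ ((x * y⁻¹ : P) : Λ) = 1 := by
      push_cast
      rw [map_mul, map_inv, h, mul_inv_cancel]
    have h2 := hinj0 _ h1
    exact mul_inv_eq_one.1 h2
  have hrinj : Function.Injective r := by
    intro x y h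
    rw [hr, hr] at h
    exact hρinj x y (Units.ext h)
  have hdet : ∀ x : P, (r x).det = 1 := by
    intro x
    have h1 := hDET n hn Λ hFG hQ Eˣ (Matrix.GeneralLinearGroup.det.comp ρ) (x : Λ)
    have h2 := congrArg (fun z : Eˣ => (z : E)) h1
    simpa [hr] using h2
  obtain ⟨t, u, htu, hrk, hpow, huni⟩ := hNILU n hn E P hP r hrinj hdet
  refine hMAI n hn Λ hFG hQ hRF E ρ hρ (t : Λ) (u : Λ) ?_ hrk huni ?_
  · exact congrArg Subtype.val htu
  · intro k hk j h
    refine hpow k hk j (hρinj _ _ ?_)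
    push_cast
    rw [map_pow, map_zpow]
    exact h

end Pool.Agent.PR
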