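import Pool.Agent.helper5.PR.AsmK
import Pool.Agent.helper17.PR.SpecNU
import Pool.Agent.helper91.PR.N_RES
import Pool.Agent.helper91.PR.N_EXP
import Pool.Agent.helper33.PR.N_IRR
import Pool.Agent.helper33.PR.N_TRI
import Pool.Agent.helper71.PR.N_FIT
import Pool.Agent.helper23.PR.N_UNI
import Pool.Agent.helper95.PR.N_SPL
import Pool.Agent.helper53.PR.N_POW
import Pool.Agent.helper17.PR.N_CEN
import Pool.Agent.helper40.PR.N_SNG
import Pool.Agent.helper45.PR.N_BGU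
import Pool.Agent.helper45.PR.N_NILU
import Pool.Agent.helper90.PR.LSA
import Pool.Agent.helper28.PR.LTOP
import Pool.Agent.helper61.PR.LINF
import Pool.Agent.helper65.PR.LCZ
import Pool.Agent.helper1.PR.LLAT
import Pool.Agent.helper1.PR.LSPQ
import Pool.Agent.helper93.PR.LR1
import Pool.Agent.helper1.PR.LRK1
import Pool.Agent.helper16.PR.S_SAND
import Pool.Agent.helper18.PR.S_SYS
import Pool.Agent.helper18.PR.S_IDX
import Pool.Agent.helper8.PR.S_RFI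
import Pool.Agent.helper25.PR.S_ONE
import Pool.Agent.helper18.PR.S_DICH
import Pool.Agent.helper8.PR.S_ADJ
import Pool.Agent.helper8.PR.S_ULT
import Pool.Agent.helper43.PR.S_ALM
import Pool.Agent.helper18.PR.S_EXP
import Pool.Agent.helper38.PR.S_EXA
import Pool.Agent.helper63.PR.S_EXB
import Pool.Agent.helper38.PR.S_EXT
import Pool.Agent.helper18.PR.S_REW
import Pool.Agent.helper59.PR.S_SPAN
import Pool.Agent.helper8.PR.S_KER
import Pool.Agent.helper93.PR.S_TOR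
import Pool.Agent.helper53.PR.S_NILP
import Pool.Agent.helper53.PR.S_DET
import Pool.Agent.helper25.PR.S_ZI
import Pool.Agent.helper8.PR.S_LAT
import Pool.Agent.helper89.PR.S_BAD
import Pool.Agent.helper53.PR.S_FORM
import Pool.Agent.helper18.PR.S_BND
import Pool.Agent.helper9.PR.S_JNT
import Pool.Agent.helper99.PR.S_FINK
import Pool.Agent.helper8.PR.S_DEN
import Pool.Agent.helper53.PR.S_INT
import Pool.Agent.helper24.PR.S_ZDH
import Pool.Agent.helper8.PR.S_HFI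
import Pool.Agent.helper8.PR.S_UNB
import Pool.Agent.helper34.PR.S_SAQ
import Pool.Agent.helper71.PR.S_SAT
import Pool.Agent.helper20.PR.S_SAR
import Pool.Agent.helper5.PR.S_MAI
import Pool.Agent.helper5.PR.S_MAIN
import Pool.Agent.helper43.PR.S_FIN

/-!
Project pr: assembly of part S: the one-sided classification.
-/

namespace Pool.Agent.PR

theorem tN_SPL : N_SPL_stmt := N_SPL N_RES (N_FIT N_RES) N_UNI

theorem tS_NILU : S_NILU_stmt :=
  N_NILU (N_BGU (N_TRI (N_IRR N_EXP)) tN_SPL (N_SNG N_RES (N_FIT N_RES) tN_SPL) N_POW N_CEN)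

theorem tS_SAND : S_SAND_stmt := S_SAND tM_ALL
theorem tS_SYS : S_SYS_stmt := S_SYS tTR
theorem tS_IDX : S_IDX_stmt := S_IDX tS_SAND
theorem tS_ALM : S_ALM_stmt := S_ALM (S_ONE tS_IDX) K_BC tK_EMB tK_BLK
theorem tS_EXP : S_EXP_stmt := S_EXP (S_DICH tS_IDX S_RFI) (S_ADJ tS_SAND) S_ULT tS_ALM
theorem tS_EXT : S_EXT_stmt := S_EXT (S_EXB (S_EXA tS_SAND))
theorem tS_SPAN : S_SPAN_stmt := S_SPAN (S_REW tTR K_TOP K_CLO tK_BLK) tCL K_FG K_BC tK_EMB
theorem tS_TOR : S_TOR_stmt := S_TOR tS_SYS tS_ALM tS_EXT (S_KER tK_CMP tS_SPAN) tS_SAND K_FG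
theorem tS_FORM : S_FORM_stmt := S_FORM tK_RAT tS_SPAN S_DET (S_LAT S_ZI) (S_BAD S_ZI) LR1 LSPQ
theorem tS_JNT : S_JNT_stmt := S_JNT tS_SYS LTOP LINF (LCZ tCL LLAT) K_FG S_ZI
theorem tS_FINK : S_FINK_stmt := S_FINK tS_JNT (S_BND tS_EXT tK_CMP) tS_SAND
theorem tS_DEN : S_DEN_stmt := S_DEN tS_JNT LSA
theorem tS_HFI : S_HFI_stmt := S_HFI S_ZDH S_INT LRK1
theorem tS_SAT : S_SAT_stmt := S_SAT S_ZI (M_FIN tM_ALL) LSA

theorem tS_MAI : S_MAI_stmt :=
  S_MAI tS_FORM tS_FINK tS_DEN tS_HFI (S_UNB S_ZI) (S_SAR S_ZI) tS_SAT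

theorem tS_MAIN : S_MAIN_stmt := S_MAIN tS_TOR tS_NILU S_DET tS_MAI

theorem tS_FIN : S_FIN_stmt := S_FIN tS_SYS tS_EXP tS_EXT S_NILP tS_MAIN K_FG

end Pool.Agent.PR
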