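import Pool.Agent.helper5.PR.SpecX

set_option autoImplicit false
set_option linter.unusedSimpArgs false

namespace Pool.Agent.PR

open Matrix
open scoped commutatorElement

/-- elementary matrix with entry one over a ring -/
def X_CQ_e {n : ℕ} (R : Type) [CommRing R] (i j : Fin n) (h : i ≠ j) : SpecialLinearGroup (Fin n) R :=
  ⟨Matrix.transvection i j 1, Matrix.det_transvection_of_ne i j h 1⟩

theorem X_CQ_comm {n : ℕ} (R : Type) [CommRing R] (i j k : Fin n) (hij : i ≠ j) (hik : i ≠ k)
    (hkj : k ≠ j) : X_CQ_e R i j hij = ⁅X_CQ_e R i k hik, X_CQ_e R k j hkj⁆ := by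
  rw [commutatorElement_def]
  have h1 : X_CQ_e R i j hij * (X_CQ_e R k j hkj * X_CQ_e R i k hik) =
      X_CQ_e R i k hik * X_CQ_e R k j hkj := by
    apply Subtype.ext
    change Matrix.transvection i j (1 : R) * (Matrix.transvection k j 1 * Matrix.transvection i k 1) =
      Matrix.transvection i k 1 * Matrix.transvection k j 1
    simp only [Matrix.transvection]
    simp only [mul_add, add_mul, one_mul, mul_one, Matrix.single_mul_single_same,
      Matrix.single_mul_single_of_ne, hij, hij.symm, hik, hik.symm, hkj, hkj.symm, ne_eq,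
      not_false_eq_true, zero_mul, mul_zero, add_zero, zero_add]
    abel
  rw [← h1]
  group

theorem X_CQ_center {n : ℕ} (R : Type) [CommRing R] (x : SpecialLinearGroup (Fin n) R)
    (h : ∀ (i j : Fin n) (hij : i ≠ j), X_CQ_e R i j hij * x = x * X_CQ_e R i j hij) :
    x ∈ Subgroup.center (SpecialLinearGroup (Fin n) R) := by
  have h1 : (x : Matrix (Fin n) (Fin n) R) ∈ Set.range (Matrix.scalar (Fin n)) := by
    apply Matrix.mem_range_scalar_of_commute_single
    intro i j hij
    have h2 := congrArg Subtype.val (h i j hij)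
    change Matrix.transvection i j (1 : R) * (x : Matrix (Fin n) (Fin n) R) =
      (x : Matrix (Fin n) (Fin n) R) * Matrix.transvection i j 1 at h2
    rw [Matrix.transvection, add_mul, mul_add, one_mul, mul_one] at h2
    exact add_left_cancel h2
  obtain ⟨r, hr⟩ := h1
  rw [Subgroup.mem_center_iff]
  intro y
  apply Subtype.ext
  change (y : Matrix (Fin n) (Fin n) R) * (x : Matrix (Fin n) (Fin n) R) =
    (x : Matrix (Fin n) (Fin n) R) * (y : Matrix (Fin n) (Fin n) R)
  rw [← hr]
  exact (Matrix.scalar_commute r (Commute.all r) _).symm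

theorem X_CQ (_hRSJ : X_RSJ_stmt) : X_CQ_stmt := by
  intro n hn m d _ _ Λ L _ _ Φ₀ π hsurj hker hπ y hy
  have hcen : Φ₀ y ∈ Subgroup.center Λ := hπ hy
  rw [Subgroup.mem_center_iff] at hcen
  -- commutators with y are central
  have h1 : ∀ z : SLI n m × SLd n d, ⁅y, z⁆ ∈ Subgroup.center (SLI n m × SLd n d) := by
    intro z
    apply hker
    rw [MonoidHom.mem_ker, map_commutatorElement, commutatorElement_eq_one_iff_mul_comm]
    exact (hcen _).symm
  have h2 : ∀ z w : SLI n m × SLd n d, ⁅y, z * w⁆ = ⁅y, z⁆ * ⁅y, w⁆ := by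
    intro z w
    have h3 := Subgroup.mem_center_iff.1 (h1 w) z
    calc ⁅y, z * w⁆ = ⁅y, z⁆ * (z * ⁅y, w⁆ * z⁻¹) := by
          simp only [commutatorElement_def]; group
      _ = ⁅y, z⁆ * ⁅y, w⁆ := by rw [h3, mul_inv_cancel_right]
  let c : SLI n m × SLd n d →* Subgroup.center (SLI n m × SLd n d) :=
    { toFun := fun z => ⟨⁅y, z⁆, h1 z⟩
      map_one' := Subtype.ext (by simp)
      map_mul' := fun z w => Subtype.ext (h2 z w) }
  have h3 : ∀ z w : SLI n m × SLd n d, ⁅y, ⁅z, w⁆⁆ = 1 := by
    intro z w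
    have h4 : c ⁅z, w⁆ = 1 := by
      rw [map_commutatorElement, commutatorElement_eq_one_iff_mul_comm]
      exact Subtype.ext (Subgroup.mem_center_iff.1 (c w).2 (c z : SLI n m × SLd n d))
    exact congrArg Subtype.val h4
  have hthird : ∀ i j : Fin n, i ≠ j → ∃ k, i ≠ k ∧ k ≠ j := by
    intro i j _
    have h5 : (({i, j} : Finset (Fin n))).card < Fintype.card (Fin n) := by
      rw [Fintype.card_fin]
      exact lt_of_le_of_lt Finset.card_le_two (by omega)
    obtain ⟨k, hk⟩ := Finset.exists_mem_notMem_of_card_lt_card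
      (s := ({i, j} : Finset (Fin n))) (t := Finset.univ) (by rwa [Finset.card_univ])
    simp only [Finset.mem_insert, Finset.mem_singleton, not_or] at hk
    exact ⟨k, fun h => hk.2.1 h.symm, hk.2.2⟩
  have hA : y.1 ∈ Subgroup.center (SLI n m) := by
    apply X_CQ_center
    intro i j hij
    obtain ⟨k, hik, hkj⟩ := hthird i j hij
    have h6 := h3 (X_CQ_e (ZI m) i k hik, 1) (X_CQ_e (ZI m) k j hkj, 1)
    rw [commutatorElement_eq_one_iff_mul_comm] at h6
    have h7 := congrArg Prod.fst h6
    have h8 : (⁅((X_CQ_e (ZI m) i k hik, 1) : SLI n m × SLd n d), ((X_CQ_e (ZI m) k j hkj, 1) : SLI n m × SLd n d)⁆).1 =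
        X_CQ_e (ZI m) i j hij := by
      rw [X_CQ_comm (ZI m) i j k hij hik hkj]
      rfl
    rw [Prod.fst_mul, Prod.fst_mul, h8] at h7
    exact h7.symm
  have hB : y.2 ∈ Subgroup.center (SLd n d) := by
    apply X_CQ_center
    intro i j hij
    obtain ⟨k, hik, hkj⟩ := hthird i j hij
    have h6 := h3 (1, X_CQ_e (ZMod d) i k hik) (1, X_CQ_e (ZMod d) k j hkj)
    rw [commutatorElement_eq_one_iff_mul_comm] at h6
    have h7 := congrArg Prod.snd h6
    have h8 : (⁅((1, X_CQ_e (ZMod d) i k hik) : SLI n m × SLd n d), ((1, X_CQ_e (ZMod d) k j hkj) : SLI n m × SLd n d)⁆).2 =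
        X_CQ_e (ZMod d) i j hij := by
      rw [X_CQ_comm (ZMod d) i j k hij hik hkj]
      rfl
    rw [Prod.snd_mul, Prod.snd_mul, h8] at h7
    exact h7.symm
  rw [Subgroup.mem_center_iff] at hA hB ⊢
  exact fun z => Prod.ext (hA z.1) (hB z.2)

end Pool.Agent.PR
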