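import Pool.Agent.helper5.PR.SpecX

set_option autoImplicit false

namespace Pool.Agent.PR

open Matrix

theorem X_L_inf (n m : ℕ) (hn : 3 ≤ n) : Infinite (SLI n m) := by
  let i0 : Fin n := ⟨0, by omega⟩
  let i1 : Fin n := ⟨1, by omega⟩
  have h01 : i0 ≠ i1 := by simp [i0, i1]
  refine Infinite.of_injective
    (fun k : ℤ => (⟨Matrix.transvection i0 i1 ((k : ℤ) : ZI m), Matrix.det_transvection_of_ne i0 i1 h01 _⟩ : SLI n m)) ?_
  intro a b h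
  have h1 := congrArg (fun x : SLI n m => (((x : Matrix (Fin n) (Fin n) (ZI m)) i0 i1 : ZI m) : ℚ)) h
  simp [Matrix.transvection, Matrix.single_apply, Matrix.one_apply, h01] at h1
  exact h1

theorem X_L (hCEN : X_CEN_stmt) (hJR : X_JR_stmt) (hLEV : X_LEV_stmt) (hDEC : X_DEC_stmt)
    (hFQ : X_FQ_stmt) (hCQ : X_CQ_stmt) (hDEN : X_DEN_stmt) (hBND : S_BND_stmt) : X_L_stmt := by
  intro n hn L _ hFG hRF hQ P hP
  obtain ⟨Λ, _, π, m, R, hFGΛ, hQΛ, hRFΛ, hπ, hπc, hm, hR, hRfin⟩ := hCEN n hn L hFG hRF hQ P hP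
  have hinf : (Set.range R).Infinite := by
    have h1 := X_L_inf n m hn
    rw [hR.range_eq]
    exact Set.infinite_univ
  obtain ⟨S, hS1, hS2⟩ := hJR n hn Λ hQΛ m hm R hinf
  have hbnd : ∀ q : ℕ, q.Prime → q ∣ m → ¬ Unb hn S q := by
    intro q hq hqm
    obtain ⟨x, hx⟩ := hDEN n m hn hm q hq hqm
    obtain ⟨l, rfl⟩ := hR x
    exact hBND n hn Λ hFGΛ hQΛ hRFΛ m hm R hinf q hq ⟨l, hx⟩ S
  obtain ⟨d, hd⟩ := hLEV n hn Λ S m hm hbnd
  obtain ⟨s, hs1, hs2⟩ := hDEC n hn Λ hRFΛ m hm R hR hRfin S d hd hS1 hS2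
  obtain ⟨t, ht1, ht2⟩ := hFQ n hn Λ hRFΛ m hm R hR hRfin S d hd hS1 hS2
  have htR : ∀ c, t c ∈ R.ker := fun c => ht1 ▸ ⟨c, rfl⟩
  let Φ₀ : SLI n m × SLd n d →* Λ := MonoidHom.noncommCoprod s t (fun x c => hs2 x (t c) (htR c))
  have hΦ : ∀ y, Φ₀ y = s y.1 * t y.2 := fun y => rfl
  have hsurj : Function.Surjective Φ₀ := by
    intro l
    have h1 : (s (R l))⁻¹ * l ∈ R.ker := by
      rw [MonoidHom.mem_ker, map_mul, map_inv, hs1, inv_mul_cancel]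
    rw [← ht1] at h1
    obtain ⟨c, hc⟩ := h1
    refine ⟨(R l, c), ?_⟩
    rw [hΦ]
    simp only
    rw [hc, mul_inv_cancel_left]
  have hker : Φ₀.ker ≤ Subgroup.center _ := by
    intro y hy
    rw [MonoidHom.mem_ker, hΦ] at hy
    have h1 : y.1 = 1 := by
      have h2 := congrArg R hy
      rw [map_mul, hs1, MonoidHom.mem_ker.1 (htR y.2), mul_one, map_one] at h2
      exact h2
    have h2 : t y.2 = 1 := by
      rw [h1, map_one, one_mul] at hy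
      exact hy
    have h3 : y.2 ∈ Subgroup.center (SLd n d) := ht2 h2
    rw [Subgroup.mem_center_iff] at h3 ⊢
    intro z
    refine Prod.ext ?_ ?_
    · simp [h1]
    · exact h3 z.2
  refine ⟨m, d, π.comp Φ₀, hm, hd.1, hd.2.1, hπ.comp hsurj, ?_⟩
  exact hCQ n hn m d hm hd.1 Λ L Φ₀ π hsurj hker hπc

end Pool.Agent.PR
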