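import Pool.Agent.helper5.PR.AsmS
import Pool.Agent.helper48.PR.AsmL
import Pool.Agent.helper43.PR.LT1
import Pool.Agent.helper50.PR.N_BIG
import Pool.Agent.helper67.PR.N_K4
import Pool.Agent.helper33.PR.N_KA
import Pool.Agent.helper95.PR.N_KB
import Pool.Agent.helper33.PR.N_KC
import Pool.Agent.helper45.PR.N_FIN
import Pool.Agent.helper45.PR.X_CRT
import Pool.Agent.helper45.PR.X_RSJ
import Pool.Agent.helper45.PR.X_RED
import Pool.Agent.helper1.PR.X_CSI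
import Pool.Agent.helper50.PR.X_JR
import Pool.Agent.helper1.PR.X_LEV
import Pool.Agent.helper23.PR.X_DEC
import Pool.Agent.helper8.PR.X_FQ
import Pool.Agent.helper45.PR.X_DEN
import Pool.Agent.helper5.PR.X_CQ
import Pool.Agent.helper11.PR.X_CEN
import Pool.Agent.helper5.PR.X_L
import Pool.Agent.helper93.PR.X_CFG
import Pool.Agent.helper38.PR.X_CQL
import Pool.Agent.helper46.PR.X_CRF
import Pool.Agent.helper21.PR.X_UNI
import Pool.Agent.helper29.PR.X_CNL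
import Pool.Agent.helper45.PR.X_FINAL

/-!
Project pr: assembly of part X: the exact classification.
-/

namespace Pool.Agent.PR

theorem tNIL : NIL_stmt := N_FIN (N_BIG (N_TRI (N_IRR N_EXP)) tN_SPL N_POW N_CEN) (N_K4 N_KA N_KB N_KC N_CEN)

theorem tLT1 : LT1_stmt := LT1 tLRHO tLFAI tNIL tLTR

theorem tX_CRT : X_CRT_stmt := X_CRT LSA
theorem tX_RSJ : X_RSJ_stmt := X_RSJ LSA
theorem tX_RED : X_RED_stmt := X_RED S_ZI
theorem tX_CSI : X_CSI_stmt := X_CSI tX_RED tX_RSJ tM_ALL tS_SAT S_ZI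
theorem tX_JR : X_JR_stmt := X_JR tS_JNT tX_RED S_ZI
theorem tX_L : X_L_stmt :=
  X_L (X_CEN tS_SYS tS_EXP tS_EXT S_NILP tS_MAIN K_FG) tX_JR X_LEV (X_DEC tX_CSI tX_CRT tX_RED tS_SAND)
    (X_FQ tX_CSI tX_CRT tX_RSJ tX_RED tS_SAND) (X_CQ tX_RSJ) (X_DEN S_ZI) (S_BND tS_EXT tK_CMP)

theorem tX_FINAL : X_FINAL_stmt :=
  X_FINAL tX_L (X_CFG tS_SAT S_ZI K_FG) (X_CQL tX_CSI tX_CRT tX_RSJ) (X_CRF tX_RED S_ZI) (X_CNL X_UNI) tLT1

end Pool.Agent.PR
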