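import Pool.Agent.helper5.PR.AsmX
import Pool.Agent.helper51.PR.Y_TORF
import Pool.Agent.helper12.PR.Y_POWF
import Pool.Agent.helper87.PR.Y_CHAR
import Pool.Agent.helper19.PR.Y_EIG
import Pool.Agent.helper3.PR.Y_SPLIT
import Pool.Agent.helper8.PR.Y_GLU
import Pool.Agent.helper63.PR.Y_EMB
import Pool.Agent.helper52.PR.Y_SINGLE
import Pool.Agent.helper20.PR.Y_NILU
import Pool.Agent.helper21.PR.Y_PULL
import Pool.Agent.helper67.PR.Y_CEN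
import Pool.Agent.helper5.PR.Y_L
import Pool.Agent.helper92.PR.Y_UNI
import Pool.Agent.helper23.PR.Y_CNL
import Pool.Agent.helper59.PR.Y_TWO
import Pool.Agent.helper30.PR.Y_FINAL

/-!
Project pr: assembly of part Y.
-/

namespace Pool.Agent.PR

theorem tY_POWF : Y_POWF_stmt := Y_POWF Y_TORF
theorem tY_EMB : Y_EMB_stmt := Y_EMB Y_CHAR Y_EIG (Y_SPLIT (N_FIT N_RES)) Y_GLU
theorem tY_NILU : Y_NILU_stmt := Y_NILU (N_TRI (N_IRR N_EXP)) tY_POWF tY_EMB (Y_SINGLE Y_EIG tY_POWF)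
theorem tY_L : Y_L_stmt :=
  Y_L (Y_CEN tS_SYS tS_EXP tS_EXT tS_TOR S_DET tS_MAI Y_PULL tY_NILU K_FG) tX_JR X_LEV
    (X_DEC tX_CSI tX_CRT tX_RED tS_SAND) (X_FQ tX_CSI tX_CRT tX_RSJ tX_RED tS_SAND) (X_CQ tX_RSJ)
    (X_DEN S_ZI) (S_BND tS_EXT tK_CMP)
theorem tY_CNL : Y_CNL_stmt := Y_CNL (Y_UNI (N_TRI (N_IRR N_EXP)) tN_SPL N_POW)
theorem tY_TWO : Y_TWO_stmt := Y_TWO (X_CNL X_UNI) tLT1
theorem tY_FINAL : Y_FINAL_stmt :=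
  Y_FINAL tY_L (X_CFG tS_SAT S_ZI K_FG) (X_CQL tX_CSI tX_CRT tX_RSJ) (X_CRF tX_RED S_ZI) tY_CNL tY_TWO

end Pool.Agent.PR
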